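import Mathlib

set_option autoImplicit false

namespace Pool.Agent.Results.MP_999027_co.AverageLaw

open MeasureTheory Set Filter Topology

/-- The line `a x + b y = c` in the plane (a genuine line when `(a, b) ≠ (0, 0)`). -/
def line (a b c : ℝ) : Set (ℝ × ℝ) := {p | a * p.1 + b * p.2 = c}

/-- The interior of the cell of the `n × n` chessboard `Q_n` in `[-1, 1]²` in column `i` and row `j`
(`i, j` run over `0, …, n - 1`; this is the cell `c_{i+1, j+1}` of the problem). -/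
def cellInterior (n : ℕ) (i j : Fin n) : Set (ℝ × ℝ) :=
  {p | -1 + 2 * ((i : ℕ) : ℝ) / n < p.1 ∧ p.1 < -1 + 2 * (((i : ℕ) : ℝ) + 1) / n ∧
       -1 + 2 * ((j : ℕ) : ℝ) / n < p.2 ∧ p.2 < -1 + 2 * (((j : ℕ) : ℝ) + 1) / n}

/-- A set `L` (a line) pierces the cell `(i, j)` of `Q_n` if it meets the interior of the cell. -/
def Pierces (L : Set (ℝ × ℝ)) (n : ℕ) (i j : Fin n) : Prop := (L ∩ cellInterior n i j).Nonempty

/-- Number of cells of `Q_n` pierced by none of the `K` lines `a l x + b l y = c l`. -/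
noncomputable def unpierced (n K : ℕ) (a b c : Fin K → ℝ) : ℕ :=
  Nat.card {q : Fin n × Fin n // ∀ l, ¬ Pierces (line (a l) (b l) (c l)) n q.1 q.2}

/-- The average, over all translation vectors `w` in the square `[0, 2/n]²` (a period of the lattice of
cells), of the number of cells of `Q_n` pierced by none of the `K` lines `a l x + b l y = c l`
translated by `w`. -/
noncomputable def averageUnpierced (n K : ℕ) (a b c : Fin K → ℝ) : ℝ :=
  ⨍ w in Icc (0 : ℝ) (2 / n) ×ˢ Icc (0 : ℝ) (2 / n),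
    (unpierced n K a b (fun l => c l + a l * w.1 + b l * w.2) : ℝ)

/-! ### The parameter of the inner product -/

section Kappa

variable {ι : Type*} [Fintype ι]

lemma den_pos {a b κ : ℝ} (hab : |a| + |b| = 1) (hκ : 0 < κ) : 0 < κ * a ^ 2 + b ^ 2 := by
  by_cases ha : a = 0
  · have hb : b ≠ 0 := by
      rintro rfl
      simp [ha] at hab
    have := pow_pos (abs_pos.2 hb) 2
    rw [sq_abs] at this
    nlinarith [sq_nonneg a]
  · have := pow_pos (abs_pos.2 ha) 2
    rw [sq_abs] at this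
    nlinarith [sq_nonneg b, mul_pos hκ this]

lemma pointwise {a b κ : ℝ} (hab : |a| + |b| = 1) (hκ : 0 < κ) :
    κ * |a| / (κ * a ^ 2 + b ^ 2) + κ * (|b| / (κ * a ^ 2 + b ^ 2)) ≤ 1 + κ := by
  have hd := den_pos hab hκ
  have h1 : κ * |a| / (κ * a ^ 2 + b ^ 2) + κ * (|b| / (κ * a ^ 2 + b ^ 2)) =
      κ / (κ * a ^ 2 + b ^ 2) := by
    rw [mul_div_assoc', ← add_div, ← mul_add, hab, mul_one]
  rw [h1, div_le_iff₀ hd]
  have h2 : a ^ 2 = |a| ^ 2 := (sq_abs a).symm
  have h3 : b ^ 2 = |b| ^ 2 := (sq_abs b).symm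
  have h4 : |b| = 1 - |a| := by linarith
  rw [h2, h3, h4]
  have ha := abs_nonneg a
  nlinarith [sq_nonneg (κ * |a| - (1 - |a|))]

/-- the first sum -/
noncomputable def F1 (a b : ι → ℝ) (κ : ℝ) : ℝ := ∑ k, κ * |a k| / (κ * a k ^ 2 + b k ^ 2)

/-- the second sum -/
noncomputable def F2 (a b : ι → ℝ) (κ : ℝ) : ℝ := ∑ k, |b k| / (κ * a k ^ 2 + b k ^ 2)

lemma F_sum (a b : ι → ℝ) (hab : ∀ k, |a k| + |b k| = 1) {κ : ℝ} (hκ : 0 < κ) :
    F1 a b κ + κ * F2 a b κ ≤ (1 + κ) * Fintype.card ι := by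
  unfold F1 F2
  rw [Finset.mul_sum, ← Finset.sum_add_distrib]
  calc _ ≤ ∑ _k : ι, (1 + κ) := Finset.sum_le_sum fun k _ => pointwise (hab k) hκ
    _ = _ := by rw [Finset.sum_const, Finset.card_univ, nsmul_eq_mul, mul_comm]

lemma exists_large (a b : ι → ℝ) (hab : ∀ k, |a k| + |b k| = 1) :
    ∃ κ : ℝ, 1 ≤ κ ∧ F2 a b κ ≤ Fintype.card ι := by
  have h : ∀ᶠ κ : ℝ in atTop, ∀ k, a k ≠ 0 → 1 ≤ κ * a k ^ 2 := by
    rw [eventually_all]
    intro k
    by_cases hk : a k = 0
    · simp [hk]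
    · have hp : 0 < a k ^ 2 := by positivity
      filter_upwards [eventually_ge_atTop (1 / a k ^ 2)] with κ hκ _
      rwa [div_le_iff₀ hp] at hκ
  obtain ⟨κ, hκ, hκ1⟩ := (h.and (eventually_ge_atTop 1)).exists
  refine ⟨κ, hκ1, ?_⟩
  unfold F2
  calc _ ≤ ∑ _k : ι, (1 : ℝ) := Finset.sum_le_sum fun k _ => ?_
    _ = _ := by simp
  have hd := den_pos (hab k) (by linarith : 0 < κ)
  rw [div_le_iff₀ hd, one_mul]
  have hb := hab k
  by_cases hk : a k = 0
  · rw [hk, abs_zero, zero_add] at hb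
    have : b k ^ 2 = 1 := by rw [← sq_abs, hb]; norm_num
    rw [this, hb]
    nlinarith [sq_nonneg (a k), mul_nonneg (by linarith : (0 : ℝ) ≤ κ) (sq_nonneg (a k))]
  · have := hκ k hk
    have ha := abs_nonneg (a k)
    nlinarith [sq_nonneg (b k)]

lemma exists_small (a b : ι → ℝ) (hab : ∀ k, |a k| + |b k| = 1) :
    ∃ κ : ℝ, 0 < κ ∧ κ ≤ 1 ∧ F1 a b κ ≤ Fintype.card ι := by
  have h : ∀ᶠ κ : ℝ in 𝓝[>] 0, ∀ k, b k ≠ 0 → κ ≤ b k ^ 2 := by
    rw [eventually_all]
    intro k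
    by_cases hk : b k = 0
    · simp [hk]
    · have hp : 0 < b k ^ 2 := by positivity
      filter_upwards [nhdsWithin_le_nhds (eventually_le_nhds hp)] with κ hκ _
      exact hκ
  have h1 : ∀ᶠ κ : ℝ in 𝓝[>] 0, κ ≤ 1 := nhdsWithin_le_nhds (eventually_le_nhds one_pos)
  have h0 : ∀ᶠ κ : ℝ in 𝓝[>] 0, 0 < κ := eventually_mem_nhdsWithin
  obtain ⟨κ, ⟨hκ, hκ1⟩, hκ0⟩ := ((h.and h1).and h0).exists
  refine ⟨κ, hκ0, hκ1, ?_⟩
  unfold F1
  calc _ ≤ ∑ _k : ι, (1 : ℝ) := Finset.sum_le_sum fun k _ => ?_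
    _ = _ := by simp
  have hd := den_pos (hab k) hκ0
  rw [div_le_iff₀ hd, one_mul]
  have ha := hab k
  have hb0 := abs_nonneg (b k)
  by_cases hk : b k = 0
  · rw [hk, abs_zero, add_zero] at ha
    have : a k ^ 2 = 1 := by rw [← sq_abs, ha]; norm_num
    rw [this, ha, hk]
    simp
  · have := hκ k hk
    nlinarith [mul_nonneg hκ0.le (sq_nonneg (a k))]

lemma exists_kappa (a b : ι → ℝ) (hab : ∀ k, |a k| + |b k| = 1) :
    ∃ κ : ℝ, 0 < κ ∧ F1 a b κ ≤ Fintype.card ι ∧ F2 a b κ ≤ Fintype.card ι := by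
  obtain ⟨κ₁, h1, h1'⟩ := exists_large a b hab
  obtain ⟨κ₀, h0, h0', h0''⟩ := exists_small a b hab
  by_cases c1 : F1 a b κ₁ ≤ F2 a b κ₁
  · exact ⟨κ₁, by linarith, c1.trans h1', h1'⟩
  by_cases c0 : F2 a b κ₀ ≤ F1 a b κ₀
  · exact ⟨κ₀, h0, h0'', c0.trans h0''⟩
  rw [not_le] at c0 c1
  have hcont : ContinuousOn (fun κ => F1 a b κ - F2 a b κ) (Icc κ₀ κ₁) := by
    unfold F1 F2
    apply ContinuousOn.sub
    · refine continuousOn_finsetSum _ fun k _ => ?_
      refine ContinuousOn.div (by fun_prop) (by fun_prop) fun κ hκ => ?_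
      exact (den_pos (hab k) (lt_of_lt_of_le h0 hκ.1)).ne'
    · refine continuousOn_finsetSum _ fun k _ => ?_
      refine ContinuousOn.div (by fun_prop) (by fun_prop) fun κ hκ => ?_
      exact (den_pos (hab k) (lt_of_lt_of_le h0 hκ.1)).ne'
  have hiv := intermediate_value_Icc (h0'.trans h1) hcont
  obtain ⟨κ, hκ, he⟩ := hiv (show (0 : ℝ) ∈ Icc _ _ from ⟨by linarith, by linarith⟩)
  have hκ0 : 0 < κ := lt_of_lt_of_le h0 hκ.1
  have he' : F1 a b κ = F2 a b κ := by simpa [sub_eq_zero] using he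
  have hs := F_sum a b hab hκ0
  rw [← he'] at hs
  have : F1 a b κ ≤ Fintype.card ι := by
    have h2 : (1 + κ) * F1 a b κ ≤ (1 + κ) * Fintype.card ι := by linarith
    exact le_of_mul_le_mul_left h2 (by linarith)
  exact ⟨κ, hκ0, this, he' ▸ this⟩

end Kappa


/-! ### The piecewise translation -/

section Bang

variable {ι : Type*} [Fintype ι] [DecidableEq ι]

/-- the sign of a Boolean -/
def sg (x : Bool) : ℝ := if x then 1 else -1

lemma sg_not (x : Bool) : sg (!x) = - sg x := by cases x <;> simp [sg]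

lemma sg_sq (x : Bool) : sg x * sg x = 1 := by cases x <;> simp [sg]

lemma abs_sg (x : Bool) : |sg x| = 1 := by cases x <;> simp [sg]

/-- signed sum -/
def SS (g : ι → ℝ) (s : ι → Bool) : ℝ := ∑ k, sg (s k) * g k

lemma SS_flip (g : ι → ℝ) (s : ι → Bool) (j : ι) :
    SS g (Function.update s j (!s j)) = SS g s - 2 * (sg (s j) * g j) := by
  unfold SS
  rw [← Finset.add_sum_erase _ _ (Finset.mem_univ j),
    ← Finset.add_sum_erase (Finset.univ) (fun k => sg (s k) * g k) (Finset.mem_univ j)]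
  have : ∑ k ∈ Finset.univ.erase j, sg (Function.update s j (!s j) k) * g k =
      ∑ k ∈ Finset.univ.erase j, sg (s k) * g k := by
    refine Finset.sum_congr rfl fun k hk => ?_
    rw [Function.update_of_ne (Finset.ne_of_mem_erase hk)]
  rw [this, Function.update_self, sg_not]
  ring

omit [DecidableEq ι] in
lemma abs_SS_le (g : ι → ℝ) (s : ι → Bool) : |SS g s| ≤ ∑ k, |g k| := by
  unfold SS
  refine (Finset.abs_sum_le_sum_abs _ _).trans (Finset.sum_le_sum fun k _ => ?_)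
  rw [abs_mul, abs_sg, one_mul]

variable (κ h : ℝ) (a b c : ι → ℝ)

/-- the weights -/
noncomputable def rr (k : ι) : ℝ := h / (κ * a k ^ 2 + b k ^ 2)

/-- the translation vector of a sign vector -/
noncomputable def T (s : ι → Bool) : ℝ × ℝ :=
  (κ * SS (fun k => rr κ h a b k * a k) s, SS (fun k => rr κ h a b k * b k) s)

/-- the functional to be maximised -/
noncomputable def Phi (z : ℝ × ℝ) (s : ι → Bool) : ℝ :=
  κ * SS (fun k => rr κ h a b k * a k) s ^ 2 + SS (fun k => rr κ h a b k * b k) s ^ 2 +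
    2 * (SS (fun k => rr κ h a b k * a k) s * z.1 + SS (fun k => rr κ h a b k * b k) s * z.2) -
    2 * SS (fun k => rr κ h a b k * c k) s

/-- the points at which the sign vector `s` is a maximiser -/
def Z (s : ι → Bool) : Set (ℝ × ℝ) := {z | ∀ s', Phi κ h a b c z s' ≤ Phi κ h a b c z s}

omit [DecidableEq ι] in
lemma isClosed_Z (s : ι → Bool) : IsClosed (Z κ h a b c s) := by
  have : Z κ h a b c s = ⋂ s', {z | Phi κ h a b c z s' ≤ Phi κ h a b c z s} := by
    ext z; simp [Z]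
  rw [this]
  refine isClosed_iInter fun s' => isClosed_le ?_ ?_
  · unfold Phi; fun_prop
  · unfold Phi; fun_prop

omit [DecidableEq ι] in
lemma exists_mem_Z (z : ℝ × ℝ) : ∃ s, z ∈ Z κ h a b c s := by
  obtain ⟨s, hs⟩ := Finite.exists_max (fun s => Phi κ h a b c z s)
  exact ⟨s, hs⟩

variable {κ h a b c}

lemma far (hab : ∀ k, |a k| + |b k| = 1) (hκ : 0 < κ) (hh : 0 < h) {s : ι → Bool} {z : ℝ × ℝ}
    (hz : z ∈ Z κ h a b c s) (j : ι) :
    h ≤ |a j * (z + T κ h a b s).1 + b j * (z + T κ h a b s).2 - c j| := by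
  have hd := den_pos (hab j) hκ
  have hr : 0 < rr κ h a b j := div_pos hh hd
  have hrd : rr κ h a b j * (κ * a j ^ 2 + b j ^ 2) = h := div_mul_cancel₀ _ hd.ne'
  have h1 := hz (Function.update s j (!s j))
  unfold Phi at h1
  rw [SS_flip, SS_flip, SS_flip] at h1
  set A := SS (fun k => rr κ h a b k * a k) s with hA
  set B := SS (fun k => rr κ h a b k * b k) s with hB
  set C := SS (fun k => rr κ h a b k * c k) s with hC
  set r := rr κ h a b j with hrdef
  have hsq := sg_sq (s j)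
  set σ := sg (s j) with hσ
  have hx : a j * (z + T κ h a b s).1 + b j * (z + T κ h a b s).2 - c j =
      a j * (z.1 + κ * A) + b j * (z.2 + B) - c j := by
    simp only [T, Prod.fst_add, Prod.snd_add, hA, hB]
  rw [hx]
  have key : r * h ≤ r * (σ * (a j * (z.1 + κ * A) + b j * (z.2 + B) - c j)) := by
    have e1 : σ * r * a j * (σ * r * a j) = r * r * a j ^ 2 := by
      calc _ = σ * σ * (r * r * a j ^ 2) := by ring
        _ = _ := by rw [hsq, one_mul]
    have e2 : σ * r * b j * (σ * r * b j) = r * r * b j ^ 2 := by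
      calc _ = σ * σ * (r * r * b j ^ 2) := by ring
        _ = _ := by rw [hsq, one_mul]
    have e3 : r * h = κ * (σ * r * a j * (σ * r * a j)) + σ * r * b j * (σ * r * b j) := by
      rw [e1, e2, ← hrd]; ring
    rw [e3]
    nlinarith [h1]
  have key2 : h ≤ σ * (a j * (z.1 + κ * A) + b j * (z.2 + B) - c j) :=
    le_of_mul_le_mul_left key hr
  refine key2.trans ((le_abs_self _).trans ?_)
  rw [abs_mul, abs_sg, one_mul]

omit [DecidableEq ι] in
lemma T_eq (hκ : 0 < κ) {s s' : ι → Bool} {z z' : ℝ × ℝ}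
    (hz : z ∈ Z κ h a b c s) (hz' : z' ∈ Z κ h a b c s')
    (he : z + T κ h a b s = z' + T κ h a b s') : T κ h a b s = T κ h a b s' := by
  have h1 := hz s'
  have h2 := hz' s
  have e1 := congrArg Prod.fst he
  have e2 := congrArg Prod.snd he
  simp only [T, Prod.fst_add, Prod.snd_add] at e1 e2
  unfold Phi at h1 h2
  unfold T
  set A := SS (fun k => rr κ h a b k * a k) s with hA
  set B := SS (fun k => rr κ h a b k * b k) s with hB
  set C := SS (fun k => rr κ h a b k * c k) s with hC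
  set A' := SS (fun k => rr κ h a b k * a k) s' with hA'
  set B' := SS (fun k => rr κ h a b k * b k) s' with hB'
  set C' := SS (fun k => rr κ h a b k * c k) s' with hC'
  have e3 : z.1 - z'.1 = - κ * (A - A') := by linarith
  have e4 : z.2 - z'.2 = - (B - B') := by linarith
  have h3 : 0 ≤ (A - A') * (z.1 - z'.1) + (B - B') * (z.2 - z'.2) := by nlinarith
  rw [e3, e4] at h3
  have h4 : κ * (A - A') ^ 2 + (B - B') ^ 2 ≤ 0 := by nlinarith
  have h5 : (A - A') ^ 2 = 0 := by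
    have := mul_nonneg hκ.le (sq_nonneg (A - A'))
    have h6 : κ * (A - A') ^ 2 = 0 := by nlinarith [sq_nonneg (B - B')]
    rcases mul_eq_zero.1 h6 with h7 | h7
    · exact absurd h7 hκ.ne'
    · exact h7
  have h6 : (B - B') ^ 2 = 0 := by
    have := mul_nonneg hκ.le (sq_nonneg (A - A'))
    nlinarith [sq_nonneg (B - B')]
  have h7 : A = A' := by
    have := pow_eq_zero_iff (two_ne_zero) |>.1 h5
    linarith
  have h8 : B = B' := by
    have := pow_eq_zero_iff (two_ne_zero) |>.1 h6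
    linarith
  rw [h7, h8]

omit [DecidableEq ι] in
lemma abs_T_fst (hκ : 0 < κ) (hh : 0 < h) (hab : ∀ k, |a k| + |b k| = 1) (s : ι → Bool) :
    |(T κ h a b s).1| ≤ h * F1 a b κ := by
  unfold T F1
  simp only
  rw [abs_mul, abs_of_pos hκ, Finset.mul_sum]
  calc κ * |SS (fun k => rr κ h a b k * a k) s| ≤ κ * ∑ k, |rr κ h a b k * a k| :=
        mul_le_mul_of_nonneg_left (abs_SS_le _ _) hκ.le
    _ = _ := by
        rw [Finset.mul_sum]
        refine Finset.sum_congr rfl fun k _ => ?_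
        have hd := den_pos (hab k) hκ
        rw [abs_mul, rr, abs_of_pos (div_pos hh hd)]
        ring

omit [DecidableEq ι] in
lemma abs_T_snd (hκ : 0 < κ) (hh : 0 < h) (hab : ∀ k, |a k| + |b k| = 1) (s : ι → Bool) :
    |(T κ h a b s).2| ≤ h * F2 a b κ := by
  unfold T F2
  simp only
  rw [Finset.mul_sum]
  calc |SS (fun k => rr κ h a b k * b k) s| ≤ ∑ k, |rr κ h a b k * b k| := abs_SS_le _ _
    _ = _ := by
        refine Finset.sum_congr rfl fun k _ => ?_
        have hd := den_pos (hab k) hκ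
        rw [abs_mul, rr, abs_of_pos (div_pos hh hd)]
        ring

end Bang


/-! ### The area of the uncovered part of a rectangle -/

section Area

variable {ι : Type*} [Fintype ι]

/-- the points at distance at least `h` (in the sense of the `a k`) from all lines -/
def Far (h : ℝ) (a b c : ι → ℝ) : Set (ℝ × ℝ) :=
  {p | ∀ j, h * (|a j| + |b j|) ≤ |a j * p.1 + b j * p.2 - c j|}

lemma area_aux {h : ℝ} (hh : 0 < h) {a b c : ι → ℝ} (hab : ∀ k, |a k| + |b k| = 1)
    {p₁ q₁ p₂ q₂ : ℝ} (h1 : 2 * (h * Fintype.card ι) ≤ q₁ - p₁)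
    (h2 : 2 * (h * Fintype.card ι) ≤ q₂ - p₂) :
    ENNReal.ofReal ((q₁ - p₁ - 2 * (h * Fintype.card ι)) * (q₂ - p₂ - 2 * (h * Fintype.card ι))) ≤
      volume (Far h a b c ∩ (Icc p₁ q₁ ×ˢ Icc p₂ q₂)) := by
  classical
  obtain ⟨κ, hκ, hf1, hf2⟩ := exists_kappa a b hab
  set f1 := F1 a b κ with hf1d
  set f2 := F2 a b κ with hf2d
  set S : Set (ℝ × ℝ) := Icc (p₁ + h * f1) (q₁ - h * f1) ×ˢ Icc (p₂ + h * f2) (q₂ - h * f2) with hS
  set V : Finset (ℝ × ℝ) := Finset.univ.image (T κ h a b) with hV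
  set W : ℝ × ℝ → Set (ℝ × ℝ) := fun t => ⋃ s ∈ {s | T κ h a b s = t}, Z κ h a b c s with hW
  have hWc : ∀ t, IsClosed (W t) := fun t =>
    (Set.toFinite _).isClosed_biUnion fun s _ => isClosed_Z _ _ _ _ _ _
  have hSm : MeasurableSet S := measurableSet_Icc.prod measurableSet_Icc
  set A : ℝ × ℝ → Set (ℝ × ℝ) := fun t => (fun x => x + (-t)) ⁻¹' (W t ∩ S) with hA
  have hAm : ∀ t, MeasurableSet (A t) := fun t =>
    (measurable_id.add_const _) ((hWc t).measurableSet.inter hSm)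
  have hdisj : (V : Set (ℝ × ℝ)).PairwiseDisjoint A := by
    intro t _ t' _ htt'
    rw [Function.onFun, Set.disjoint_left]
    rintro x hx hx'
    apply htt'
    simp only [hA, mem_preimage, mem_inter_iff, hW, mem_iUnion, exists_prop] at hx hx'
    obtain ⟨⟨s, hs, hxs⟩, -⟩ := hx
    obtain ⟨⟨s', hs', hxs'⟩, -⟩ := hx'
    have hs0 : T κ h a b s = t := hs
    have hs0' : T κ h a b s' = t' := hs'
    have := T_eq hκ hxs hxs' (by rw [hs0, hs0']; abel)
    rw [← hs0, ← hs0', this]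
  have hsub : (⋃ t ∈ V, A t) ⊆ Far h a b c ∩ (Icc p₁ q₁ ×ˢ Icc p₂ q₂) := by
    intro x hx
    simp only [hA, mem_preimage, mem_inter_iff, hW, mem_iUnion, exists_prop] at hx
    obtain ⟨t, -, ⟨s, hs, hxs⟩, hxS⟩ := hx
    have hs0 : T κ h a b s = t := hs
    have hx1 := abs_le.1 (abs_T_fst (κ := κ) hκ hh hab s)
    have hx2 := abs_le.1 (abs_T_snd (κ := κ) hκ hh hab s)
    rw [hs0] at hx1 hx2
    rw [← hf1d] at hx1
    rw [← hf2d] at hx2
    obtain ⟨⟨h3, h4⟩, h5, h6⟩ := hxS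
    simp only [Prod.fst_add, Prod.snd_add, Prod.fst_neg, Prod.snd_neg] at h3 h4 h5 h6
    refine ⟨fun j => ?_, ⟨by linarith, by linarith⟩, by linarith, by linarith⟩
    have := far hab hκ hh hxs j
    rw [hs0, neg_add_cancel_right] at this
    rwa [hab j, mul_one]
  have hcov : S ⊆ ⋃ t ∈ V, (W t ∩ S) := by
    intro z hz
    obtain ⟨s, hs⟩ := exists_mem_Z κ h a b c z
    simp only [mem_iUnion, exists_prop, hW]
    exact ⟨T κ h a b s, by simp [hV], by
      simp only [mem_inter_iff, mem_iUnion, exists_prop]; exact ⟨⟨s, rfl, hs⟩, hz⟩⟩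
  have hvol : volume S ≤ volume (Far h a b c ∩ (Icc p₁ q₁ ×ˢ Icc p₂ q₂)) := by
    calc volume S ≤ volume (⋃ t ∈ V, (W t ∩ S)) := measure_mono hcov
      _ ≤ ∑ t ∈ V, volume (W t ∩ S) := measure_biUnion_finset_le _ _
      _ = ∑ t ∈ V, volume (A t) := by
          refine Finset.sum_congr rfl fun t _ => ?_
          exact (measure_preimage_add_right volume (-t) _).symm
      _ = volume (⋃ t ∈ V, A t) := (measure_biUnion_finset hdisj fun t _ => hAm t).symm
      _ ≤ _ := measure_mono hsub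
  refine le_trans ?_ hvol
  rw [hS, Measure.volume_eq_prod, Measure.prod_prod, Real.volume_Icc, Real.volume_Icc,
    ← ENNReal.ofReal_mul]
  · apply ENNReal.ofReal_le_ofReal
    have e1 := mul_le_mul_of_nonneg_left hf1 hh.le
    have e2 := mul_le_mul_of_nonneg_left hf2 hh.le
    apply mul_le_mul
    · linarith
    · linarith
    · linarith
    · linarith
  · have e1 := mul_le_mul_of_nonneg_left hf1 hh.le
    linarith

lemma area {h : ℝ} (hh : 0 < h) {a b c : ι → ℝ} (hab : ∀ k, ¬ (a k = 0 ∧ b k = 0))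
    {p₁ q₁ p₂ q₂ : ℝ} (h1 : 2 * (h * Fintype.card ι) ≤ q₁ - p₁)
    (h2 : 2 * (h * Fintype.card ι) ≤ q₂ - p₂) :
    ENNReal.ofReal ((q₁ - p₁ - 2 * (h * Fintype.card ι)) * (q₂ - p₂ - 2 * (h * Fintype.card ι))) ≤
      volume (Far h a b c ∩ (Icc p₁ q₁ ×ˢ Icc p₂ q₂)) := by
  have hpos : ∀ k, 0 < |a k| + |b k| := fun k => by
    by_cases ha : a k = 0
    · have hb : b k ≠ 0 := fun hb => hab k ⟨ha, hb⟩
      have := abs_pos.2 hb
      have := abs_nonneg (a k)
      linarith
    · have := abs_pos.2 ha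
      have := abs_nonneg (b k)
      linarith
  have key := area_aux (a := fun k => a k / (|a k| + |b k|)) (b := fun k => b k / (|a k| + |b k|))
    (c := fun k => c k / (|a k| + |b k|)) hh (fun k => by
      rw [abs_div, abs_div, abs_of_pos (hpos k), ← add_div, div_self (hpos k).ne']) h1 h2
  refine key.trans (measure_mono (inter_subset_inter_left _ ?_))
  intro p hp j
  have h3 := hp j
  simp only at h3
  rw [abs_div, abs_div, abs_of_pos (hpos j), ← add_div, div_self (hpos j).ne', mul_one] at h3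
  have e : a j / (|a j| + |b j|) * p.1 + b j / (|a j| + |b j|) * p.2 - c j / (|a j| + |b j|) =
      (a j * p.1 + b j * p.2 - c j) / (|a j| + |b j|) := by ring
  rw [e, abs_div, abs_of_pos (hpos j), le_div_iff₀ (hpos j)] at h3
  exact h3

end Area


/-! ### From the area to the average number of unpierced cells -/

section Lattice

/-- the centre of a cell -/
noncomputable def ctr (n : ℕ) (q : Fin n × Fin n) : ℝ × ℝ :=
  (-1 + (2 * ((q.1 : ℕ) : ℝ) + 1) / n, -1 + (2 * ((q.2 : ℕ) : ℝ) + 1) / n)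

lemma not_pierces_of_far {n : ℕ} (hn : 0 < n) (q : Fin n × Fin n) {a b c : ℝ}
    (hab : ¬ (a = 0 ∧ b = 0))
    (h : 1 / (n : ℝ) * (|a| + |b|) ≤ |a * (ctr n q).1 + b * (ctr n q).2 - c|) :
    ¬ Pierces (line a b c) n q.1 q.2 := by
  rintro ⟨⟨x, y⟩, hl, h1, h2, h3, h4⟩
  have hn0 : (0 : ℝ) < n := by exact_mod_cast hn
  have hl' : a * x + b * y = c := hl
  simp only at h1 h2 h3 h4
  have e1 : (ctr n q).1 = -1 + 2 * ((q.1 : ℕ) : ℝ) / n + 1 / n := by
    simp only [ctr]; ring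
  have e1' : -1 + 2 * (((q.1 : ℕ) : ℝ) + 1) / n = -1 + 2 * ((q.1 : ℕ) : ℝ) / n + 1 / n + 1 / n := by
    ring
  have e2 : (ctr n q).2 = -1 + 2 * ((q.2 : ℕ) : ℝ) / n + 1 / n := by
    simp only [ctr]; ring
  have e2' : -1 + 2 * (((q.2 : ℕ) : ℝ) + 1) / n = -1 + 2 * ((q.2 : ℕ) : ℝ) / n + 1 / n + 1 / n := by
    ring
  rw [e1'] at h2
  rw [e2'] at h4
  have hx : |(ctr n q).1 - x| < 1 / n := by rw [e1, abs_lt]; constructor <;> linarith
  have hy : |(ctr n q).2 - y| < 1 / n := by rw [e2, abs_lt]; constructor <;> linarith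
  have e3 : a * (ctr n q).1 + b * (ctr n q).2 - c =
      a * ((ctr n q).1 - x) + b * ((ctr n q).2 - y) := by rw [← hl']; ring
  rw [e3] at h
  have h5 : |a * ((ctr n q).1 - x) + b * ((ctr n q).2 - y)| ≤
      |a| * |(ctr n q).1 - x| + |b| * |(ctr n q).2 - y| := by
    rw [← abs_mul, ← abs_mul]; exact abs_add_le _ _
  by_cases ha : a = 0
  · have hb : 0 < |b| := abs_pos.2 fun hb => hab ⟨ha, hb⟩
    have h6 : |b| * |(ctr n q).2 - y| < |b| * (1 / n) := mul_lt_mul_of_pos_left hy hb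
    have h7 : |a| * |(ctr n q).1 - x| ≤ |a| * (1 / n) :=
      mul_le_mul_of_nonneg_left hx.le (abs_nonneg _)
    nlinarith
  · have ha : 0 < |a| := abs_pos.2 ha
    have h6 : |b| * |(ctr n q).2 - y| ≤ |b| * (1 / n) :=
      mul_le_mul_of_nonneg_left hy.le (abs_nonneg _)
    have h7 : |a| * |(ctr n q).1 - x| < |a| * (1 / n) := mul_lt_mul_of_pos_left hx ha
    nlinarith

/-- the translation vectors for which the cell `q` is unpierced -/
def G (n K : ℕ) (a b c : Fin K → ℝ) (q : Fin n × Fin n) : Set (ℝ × ℝ) :=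
  {w | ∀ l, ¬ Pierces (line (a l) (b l) (c l + a l * w.1 + b l * w.2)) n q.1 q.2}

lemma isOpen_cell (n : ℕ) (i j : Fin n) : IsOpen (cellInterior n i j) := by
  unfold cellInterior
  exact (isOpen_lt continuous_const continuous_fst).inter
    ((isOpen_lt continuous_fst continuous_const).inter
    ((isOpen_lt continuous_const continuous_snd).inter
    (isOpen_lt continuous_snd continuous_const)))

open Pointwise in
lemma isClosed_G (n K : ℕ) (a b c : Fin K → ℝ) (q : Fin n × Fin n) : IsClosed (G n K a b c q) := by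
  have : G n K a b c q = ⋂ l, (cellInterior n q.1 q.2 - line (a l) (b l) (c l))ᶜ := by
    ext w
    simp only [G, mem_ofPred_eq, mem_iInter, mem_compl_iff, Set.mem_sub]
    refine forall_congr' fun l => not_congr ?_
    constructor
    · rintro ⟨p, hp, hpc⟩
      refine ⟨p, hpc, p - w, ?_, by abel⟩
      have hp' : a l * p.1 + b l * p.2 = c l + a l * w.1 + b l * w.2 := hp
      change a l * (p - w).1 + b l * (p - w).2 = c l
      simp only [Prod.fst_sub, Prod.snd_sub]
      linarith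
    · rintro ⟨p, hpc, t, ht, rfl⟩
      refine ⟨p, ?_, hpc⟩
      have ht' : a l * t.1 + b l * t.2 = c l := ht
      change a l * p.1 + b l * p.2 = c l + a l * (p - t).1 + b l * (p - t).2
      simp only [Prod.fst_sub, Prod.snd_sub]
      linarith
  rw [this]
  exact isClosed_iInter fun l => ((isOpen_cell n q.1 q.2).sub_right).isClosed_compl

lemma unpierced_eq (n K : ℕ) (a b c : Fin K → ℝ) (w : ℝ × ℝ) :
    (unpierced n K a b (fun l => c l + a l * w.1 + b l * w.2) : ℝ) =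
      ∑ q : Fin n × Fin n, (G n K a b c q).indicator (fun _ => (1 : ℝ)) w := by
  classical
  unfold unpierced
  rw [Nat.card_eq_fintype_card, Fintype.card_subtype, Finset.card_filter, Nat.cast_sum]
  refine Finset.sum_congr rfl fun q _ => ?_
  by_cases h : w ∈ G n K a b c q
  · rw [indicator_of_mem h]
    have : ∀ l, ¬ Pierces (line (a l) (b l) (c l + a l * w.1 + b l * w.2)) n q.1 q.2 := h
    rw [if_pos this, Nat.cast_one]
  · rw [indicator_of_notMem h]
    have : ¬ ∀ l, ¬ Pierces (line (a l) (b l) (c l + a l * w.1 + b l * w.2)) n q.1 q.2 := h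
    rw [if_neg this, Nat.cast_zero]

/-- the box of translation vectors -/
def Bx (n : ℕ) : Set (ℝ × ℝ) := Icc (0 : ℝ) (2 / n) ×ˢ Icc (0 : ℝ) (2 / n)

lemma measurable_Bx (n : ℕ) : MeasurableSet (Bx n) := measurableSet_Icc.prod measurableSet_Icc

lemma volume_Bx (n : ℕ) : volume (Bx n) = ENNReal.ofReal ((2 / n) ^ 2) := by
  unfold Bx
  rw [Measure.volume_eq_prod, Measure.prod_prod, Real.volume_Icc, ← ENNReal.ofReal_mul, sub_zero,
    pow_two]
  rw [sub_zero]; positivity

lemma volume_real_Bx (n : ℕ) : volume.real (Bx n) = (2 / n) ^ 2 := by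
  rw [measureReal_def, volume_Bx, ENNReal.toReal_ofReal (by positivity)]

lemma integral_eq (n K : ℕ) (a b c : Fin K → ℝ) :
    ∫ w in Bx n, (unpierced n K a b (fun l => c l + a l * w.1 + b l * w.2) : ℝ) =
      ∑ q : Fin n × Fin n, volume.real (G n K a b c q ∩ Bx n) := by
  have : IsFiniteMeasure (volume.restrict (Bx n)) := by
    constructor
    rw [Measure.restrict_apply_univ, volume_Bx]
    exact ENNReal.ofReal_lt_top
  simp_rw [unpierced_eq]
  rw [integral_finsetSum]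
  · refine Finset.sum_congr rfl fun q _ => ?_
    rw [integral_indicator (isClosed_G n K a b c q).measurableSet, integral_const,
      measureReal_restrict_apply_univ, smul_eq_mul, mul_one, measureReal_restrict_apply
      (isClosed_G n K a b c q).measurableSet]
  · intro q _
    exact (integrable_const (1 : ℝ)).indicator (isClosed_G n K a b c q).measurableSet

lemma mem_slab {n : ℕ} (hn : 0 < n) {x : ℝ} (h1 : -1 - 1 / (n : ℝ) ≤ x) (h2 : x ≤ 1 - 1 / (n : ℝ)) :
    ∃ i : Fin n, -1 + (2 * ((i : ℕ) : ℝ) + 1) / n - 2 / n ≤ x ∧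
      x ≤ -1 + (2 * ((i : ℕ) : ℝ) + 1) / n := by
  have hn0 : (0 : ℝ) < n := by exact_mod_cast hn
  set u : ℝ := (x + 1 + 1 / n) * n / 2 with hu
  have hxu : x = -1 + (2 * u - 1) / n := by rw [hu]; field_simp; ring
  have hu0 : 0 ≤ u := by
    rw [hu]; apply div_nonneg (mul_nonneg (by linarith) hn0.le) (by norm_num)
  have hun : u ≤ n := by
    rw [hu]
    have : x + 1 + 1 / n ≤ 2 := by linarith
    nlinarith
  by_cases hc : u < n
  · have hfl := Nat.floor_le hu0
    have hlt := Nat.lt_floor_add_one u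
    refine ⟨⟨⌊u⌋₊, (Nat.floor_lt hu0).2 hc⟩, ?_, ?_⟩
    · simp only
      rw [hxu]
      have : (2 * ((⌊u⌋₊ : ℕ) : ℝ) - 1) / n ≤ (2 * u - 1) / n := by gcongr
      have e : (2 * ((⌊u⌋₊ : ℕ) : ℝ) - 1) / n = (2 * ((⌊u⌋₊ : ℕ) : ℝ) + 1) / n - 2 / n := by ring
      linarith
    · simp only
      rw [hxu]
      have : (2 * u - 1) / n ≤ (2 * ((⌊u⌋₊ : ℕ) : ℝ) + 1) / n := by
        apply div_le_div_of_nonneg_right _ hn0.le
        linarith
      linarith
  · have hu' : u = n := le_antisymm hun (not_lt.1 hc)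
    have hcast : ((n - 1 : ℕ) : ℝ) = n - 1 := by rw [Nat.cast_sub hn, Nat.cast_one]
    refine ⟨⟨n - 1, by omega⟩, ?_, ?_⟩
    · simp only
      rw [hxu, hu', hcast]
      have : (2 * ((n : ℝ) - 1) + 1) / n - 2 / n ≤ (2 * (n : ℝ) - 1) / n := by
        rw [← sub_div]
        apply div_le_div_of_nonneg_right _ hn0.le
        linarith
      linarith
    · simp only
      rw [hxu, hu', hcast]
      have : (2 * (n : ℝ) - 1) / n ≤ (2 * ((n : ℝ) - 1) + 1) / n := by
        apply div_le_div_of_nonneg_right _ hn0.le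
        linarith
      linarith

lemma lower_vol {n K : ℕ} (hn : 0 < n) (hK : K ≤ n) (a b c : Fin K → ℝ)
    (hline : ∀ l, ¬ (a l = 0 ∧ b l = 0)) :
    ENNReal.ofReal ((2 / n) ^ 2 * ((n - K : ℕ) : ℝ) ^ 2) ≤
      ∑ q : Fin n × Fin n, volume (G n K a b c q ∩ Bx n) := by
  have hn0 : (0 : ℝ) < n := by exact_mod_cast hn
  have hKn : (K : ℝ) ≤ n := by exact_mod_cast hK
  have hh : (0 : ℝ) < 1 / n := by positivity
  have hw : 2 * (1 / (n : ℝ) * Fintype.card (Fin K)) ≤ (1 - 1 / (n : ℝ)) - (-1 - 1 / (n : ℝ)) := by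
    rw [Fintype.card_fin]
    have : 1 / (n : ℝ) * K ≤ 1 := by
      rw [one_div, inv_mul_le_iff₀ hn0]; linarith
    linarith
  have key := area hh (a := a) (b := b) (c := c) hline hw hw
  have hval : ((1 - 1 / (n : ℝ)) - (-1 - 1 / (n : ℝ)) - 2 * (1 / (n : ℝ) * Fintype.card (Fin K))) *
      ((1 - 1 / (n : ℝ)) - (-1 - 1 / (n : ℝ)) - 2 * (1 / (n : ℝ) * Fintype.card (Fin K))) =
      (2 / n) ^ 2 * ((n - K : ℕ) : ℝ) ^ 2 := by
    rw [Fintype.card_fin, Nat.cast_sub hK]
    field_simp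
    ring
  rw [hval] at key
  refine key.trans ?_
  set C : Fin n × Fin n → Set (ℝ × ℝ) := fun q =>
    Icc ((ctr n q).1 - 2 / n) (ctr n q).1 ×ˢ Icc ((ctr n q).2 - 2 / n) (ctr n q).2 with hC
  have hcov : Far (1 / (n : ℝ)) a b c ∩
      (Icc (-1 - 1 / (n : ℝ)) (1 - 1 / (n : ℝ)) ×ˢ Icc (-1 - 1 / (n : ℝ)) (1 - 1 / (n : ℝ))) ⊆
      ⋃ q ∈ (Finset.univ : Finset (Fin n × Fin n)), (Far (1 / (n : ℝ)) a b c ∩ C q) := by
    rintro p ⟨hp, ⟨h1, h2⟩, h3, h4⟩
    obtain ⟨i, hi1, hi2⟩ := mem_slab hn h1 h2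
    obtain ⟨j, hj1, hj2⟩ := mem_slab hn h3 h4
    simp only [mem_iUnion, exists_prop, Finset.mem_univ, true_and]
    exact ⟨(i, j), hp, ⟨hi1, hi2⟩, hj1, hj2⟩
  have hFm : MeasurableSet (Far (1 / (n : ℝ)) a b c) := by
    have : Far (1 / (n : ℝ)) a b c =
        ⋂ j, {p : ℝ × ℝ | 1 / (n : ℝ) * (|a j| + |b j|) ≤ |a j * p.1 + b j * p.2 - c j|} := by
      ext p; simp [Far]
    rw [this]
    exact (isClosed_iInter fun j => isClosed_le (by fun_prop) (by fun_prop)).measurableSet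
  refine (measure_mono hcov).trans ((measure_biUnion_finset_le _ _).trans
    (Finset.sum_le_sum fun q _ => ?_))
  have hmp := Measure.measurePreserving_sub_left (volume : Measure (ℝ × ℝ)) (ctr n q)
  have hCm : MeasurableSet (C q) := measurableSet_Icc.prod measurableSet_Icc
  rw [← hmp.measure_preimage (hFm.inter hCm).nullMeasurableSet]
  apply measure_mono
  rintro w ⟨hw1, ⟨hw2, hw3⟩, hw4, hw5⟩
  simp only [Prod.fst_sub, Prod.snd_sub] at hw2 hw3 hw4 hw5
  refine ⟨fun l => ?_, ⟨by linarith, by linarith⟩, by linarith, by linarith⟩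
  apply not_pierces_of_far hn q (hline l)
  have := hw1 l
  simp only [Prod.fst_sub, Prod.snd_sub] at this
  have e : a l * (ctr n q).1 + b l * (ctr n q).2 - (c l + a l * w.1 + b l * w.2) =
      a l * ((ctr n q).1 - w.1) + b l * ((ctr n q).2 - w.2) - c l := by ring
  rw [e]
  exact this

theorem lower {n K : ℕ} (hn : 0 < n) (a b c : Fin K → ℝ) (hline : ∀ l, ¬ (a l = 0 ∧ b l = 0)) :
    ((n - K : ℕ) : ℝ) ^ 2 ≤ averageUnpierced n K a b c := by
  have hn0 : (0 : ℝ) < n := by exact_mod_cast hn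
  have hfin : ∀ q : Fin n × Fin n, volume (G n K a b c q ∩ Bx n) ≠ ⊤ := fun q => by
    refine ne_top_of_le_ne_top ?_ (measure_mono inter_subset_right)
    rw [volume_Bx]
    exact ENNReal.ofReal_ne_top
  have hav : averageUnpierced n K a b c =
      ((2 / (n : ℝ)) ^ 2)⁻¹ * ∑ q : Fin n × Fin n, volume.real (G n K a b c q ∩ Bx n) := by
    rw [← integral_eq, ← volume_real_Bx]
    unfold averageUnpierced
    rw [setAverage_eq, smul_eq_mul]
    rfl
  rw [hav]
  have hpos : 0 < (2 / (n : ℝ)) ^ 2 := by positivity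
  rw [le_inv_mul_iff₀ hpos]
  by_cases hK : K ≤ n
  · have h := lower_vol hn hK a b c hline
    have h2 := ENNReal.toReal_mono (ENNReal.sum_ne_top.2 fun q _ => hfin q) h
    rw [ENNReal.toReal_ofReal (by positivity), ENNReal.toReal_sum fun q _ => hfin q] at h2
    exact h2
  · have : n - K = 0 := by omega
    rw [this, Nat.cast_zero, zero_pow two_ne_zero, mul_zero]
    exact Finset.sum_nonneg fun q _ => measureReal_nonneg

end Lattice

/-! ### Sharpness: parallel diagonal lines -/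

section Sharp

/-- A scaled witness point gives a pierced cell. -/
lemma pierces_of_point {n : ℕ} (i j : Fin n) (a b c X Y : ℝ)
    (h1 : ((i : ℕ) : ℝ) < X) (h2 : X < ((i : ℕ) : ℝ) + 1) (h3 : ((j : ℕ) : ℝ) < Y)
    (h4 : Y < ((j : ℕ) : ℝ) + 1) (h : a * X + b * Y = (c + a + b) * n / 2) :
    Pierces (line a b c) n i j := by
  have hn : (0 : ℝ) < n := by
    have : 0 < n := lt_of_le_of_lt (Nat.zero_le _) i.2
    exact_mod_cast this
  refine ⟨(-1 + 2 * X / n, -1 + 2 * Y / n), ?_, ?_, ?_, ?_, ?_⟩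
  · change a * (-1 + 2 * X / n) + b * (-1 + 2 * Y / n) = c
    have : a * (-1 + 2 * X / n) + b * (-1 + 2 * Y / n) = 2 * (a * X + b * Y) / n - a - b := by
      field_simp; ring
    rw [this, h]
    field_simp
    ring
  · simp only
    have : 2 * ((i : ℕ) : ℝ) / n < 2 * X / n := by gcongr
    linarith
  · simp only
    have : 2 * X / n < 2 * (((i : ℕ) : ℝ) + 1) / n := by gcongr
    linarith
  · simp only
    have : 2 * ((j : ℕ) : ℝ) / n < 2 * Y / n := by gcongr
    linarith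
  · simp only
    have : 2 * Y / n < 2 * (((j : ℕ) : ℝ) + 1) / n := by gcongr
    linarith

lemma upper_count (n K : ℕ) (P : Fin n × Fin n → Prop)
    (hP : ∀ q, P q → ((q.1 : ℕ) + K < (q.2 : ℕ) ∨ (q.2 : ℕ) + K ≤ (q.1 : ℕ))) :
    Nat.card {q // P q} ≤ (n - K) ^ 2 := by
  classical
  let φ : {q // P q} → Fin (n - K) × Fin (n - K) := fun q =>
    if h : (q.1.1 : ℕ) + K < (q.1.2 : ℕ) then
      (⟨(q.1.1 : ℕ), by have := q.1.2.2; omega⟩,
        ⟨(q.1.2 : ℕ) - K, by have := q.1.2.2; omega⟩)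
    else
      (⟨(q.1.1 : ℕ) - K, by
          have := q.1.1.2
          have h2 := hP q.1 q.2
          omega⟩,
        ⟨(q.1.2 : ℕ), by
          have := q.1.1.2
          have h2 := hP q.1 q.2
          omega⟩)
  have hφ : Function.Injective φ := by
    rintro ⟨⟨i, j⟩, hq⟩ ⟨⟨i', j'⟩, hq'⟩ h
    have h2 := hP _ hq
    have h2' := hP _ hq'
    simp only at h2 h2'
    have hfin : (i : ℕ) = (i' : ℕ) ∧ (j : ℕ) = (j' : ℕ) := by
      by_cases hc : (i : ℕ) + K < (j : ℕ) <;> by_cases hc' : (i' : ℕ) + K < (j' : ℕ)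
      · simp only [φ, hc, hc', dif_pos, Prod.mk.injEq, Fin.mk.injEq] at h
        omega
      · simp only [φ, hc, hc', dif_pos, dif_neg, Prod.mk.injEq, Fin.mk.injEq, not_false_eq_true]
          at h
        omega
      · simp only [φ, hc, hc', dif_pos, dif_neg, Prod.mk.injEq, Fin.mk.injEq, not_false_eq_true]
          at h
        omega
      · simp only [φ, hc, hc', dif_neg, Prod.mk.injEq, Fin.mk.injEq, not_false_eq_true] at h
        omega
    have e1 : i = i' := Fin.ext hfin.1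
    have e2 : j = j' := Fin.ext hfin.2
    subst e1; subst e2; rfl
  have hc := Nat.card_le_card_of_injective φ hφ
  rw [Nat.card_prod, Nat.card_fin] at hc
  rw [pow_two]
  exact hc

lemma upper_count' (n K : ℕ) (P : Fin n × Fin n → Prop)
    (hP : ∀ q, P q → ((q.2 : ℕ) + K < (q.1 : ℕ) ∨ (q.1 : ℕ) + K ≤ (q.2 : ℕ))) :
    Nat.card {q // P q} ≤ (n - K) ^ 2 := by
  have h := upper_count n K (fun q => P q.swap) (fun q hq => hP q.swap hq)
  refine le_of_eq_of_le (Nat.card_congr ?_) h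
  exact (Equiv.prodComm _ _).subtypeEquiv fun q => by simp

/-- the offsets of the diagonal lines -/
noncomputable def cc (n K : ℕ) (l : Fin K) : ℝ := 2 * (2 * ((l : ℕ) : ℝ) - K + 1) / n

lemma upper_point {n K : ℕ} (hn : 0 < n) (w : ℝ × ℝ) (hw : w ∈ Bx n) (h0 : w.2 ≠ w.1)
    (h1 : w.2 ≠ w.1 + 2 / n) (h2 : w.2 ≠ w.1 + -(2 / n)) :
    unpierced n K (fun _ => -1) (fun _ => 1) (fun l => cc n K l + (-1) * w.1 + 1 * w.2) ≤
      (n - K) ^ 2 := by
  have hn0 : (0 : ℝ) < n := by exact_mod_cast hn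
  obtain ⟨⟨hw1, hw2⟩, hw3, hw4⟩ := hw
  set δ : ℝ := (w.2 - w.1) * n / 2 with hδ
  have hwδ : w.2 - w.1 = 2 / n * δ := by rw [hδ]; field_simp
  have hlt : δ < 1 := by
    have h3 : w.2 - w.1 < 2 / n := by
      rcases lt_or_eq_of_le (by linarith : w.2 ≤ w.1 + 2 / n) with h | h
      · linarith
      · exact absurd h h1
    rw [hwδ] at h3
    have h4 : 0 < 2 / (n : ℝ) := by positivity
    nlinarith
  have hgt : -1 < δ := by
    have h3 : -(2 / (n : ℝ)) < w.2 - w.1 := by
      rcases lt_or_eq_of_le (by linarith : w.1 + -(2 / (n : ℝ)) ≤ w.2) with h | h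
      · linarith
      · exact absurd h.symm h2
    rw [hwδ] at h3
    have h4 : 0 < 2 / (n : ℝ) := by positivity
    nlinarith
  have hpierce : ∀ (i j : Fin n) (l : Fin K),
      |2 * ((l : ℕ) : ℝ) - K + 1 + δ - (((j : ℕ) : ℝ) - ((i : ℕ) : ℝ))| < 1 →
      Pierces (line (-1) 1 (cc n K l + (-1) * w.1 + 1 * w.2)) n i j := by
    intro i j l h
    rw [abs_lt] at h
    set e : ℝ := 2 * ((l : ℕ) : ℝ) - K + 1 + δ - (((j : ℕ) : ℝ) - ((i : ℕ) : ℝ)) with he
    apply pierces_of_point (X := ((i : ℕ) : ℝ) + 1 / 2 - e / 2) (Y := ((j : ℕ) : ℝ) + 1 / 2 + e / 2)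
    · linarith [h.1, h.2]
    · linarith [h.1, h.2]
    · linarith [h.1, h.2]
    · linarith [h.1, h.2]
    · have e1 : cc n K l + -1 * w.1 + 1 * w.2 + -1 + 1 = cc n K l + (w.2 - w.1) := by ring
      rw [e1, hwδ, cc, he]
      field_simp
      ring
  rcases lt_or_gt_of_ne h0 with hneg | hpos
  · -- `δ < 0`
    have hδ0 : δ < 0 := by
      rw [hδ]
      have : (w.2 - w.1) * n < 0 := mul_neg_of_neg_of_pos (by linarith) hn0
      linarith
    unfold unpierced
    apply upper_count' n K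
    rintro ⟨i, j⟩ hq
    by_contra hcon
    rw [not_or] at hcon
    simp only at hcon
    have hl : ((j : ℕ) + K - (i : ℕ)) / 2 < K := by omega
    apply hq ⟨((j : ℕ) + K - (i : ℕ)) / 2, hl⟩
    apply hpierce
    simp only
    set L : ℕ := ((j : ℕ) + K - (i : ℕ)) / 2 with hL
    have hcase : (2 * L + i = j + K) ∨ (2 * L + i + 1 = j + K) := by omega
    have hcaseR : (2 * (L : ℝ) + (i : ℕ) = (j : ℕ) + K) ∨
        (2 * (L : ℝ) + (i : ℕ) + 1 = (j : ℕ) + K) := by
      rcases hcase with h | h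
      · left; exact_mod_cast h
      · right; exact_mod_cast h
    rw [abs_lt]
    rcases hcaseR with h | h
    · constructor <;> linarith
    · constructor <;> linarith
  · have hδ0 : 0 < δ := by
      rw [hδ]
      have : 0 < (w.2 - w.1) * n := mul_pos (by linarith) hn0
      linarith
    unfold unpierced
    apply upper_count n K
    rintro ⟨i, j⟩ hq
    by_contra hcon
    rw [not_or] at hcon
    simp only at hcon
    have hl : ((j : ℕ) + K - 1 - (i : ℕ)) / 2 < K := by omega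
    apply hq ⟨((j : ℕ) + K - 1 - (i : ℕ)) / 2, hl⟩
    apply hpierce
    simp only
    set L : ℕ := ((j : ℕ) + K - 1 - (i : ℕ)) / 2 with hL
    have hcase : (2 * L + i + 1 = j + K) ∨ (2 * L + i + 2 = j + K) := by omega
    have hcaseR : (2 * (L : ℝ) + (i : ℕ) + 1 = (j : ℕ) + K) ∨
        (2 * (L : ℝ) + (i : ℕ) + 2 = (j : ℕ) + K) := by
      rcases hcase with h | h
      · left; exact_mod_cast h
      · right; exact_mod_cast h
    rw [abs_lt]
    rcases hcaseR with h | h
    · constructor <;> linarith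
    · constructor <;> linarith

lemma null_diag (t : ℝ) : volume {w : ℝ × ℝ | w.2 = w.1 + t} = 0 := by
  have hm : MeasurableSet {w : ℝ × ℝ | w.2 = w.1 + t} :=
    (isClosed_eq continuous_snd (continuous_fst.add continuous_const)).measurableSet
  rw [Measure.volume_eq_prod, Measure.measure_prod_null hm]
  filter_upwards with x
  have : Prod.mk x ⁻¹' {w : ℝ × ℝ | w.2 = w.1 + t} = {x + t} := by
    ext y; simp
  rw [this]
  simp

theorem upper {n K : ℕ} (hn : 0 < n) :
    averageUnpierced n K (fun _ => -1) (fun _ => 1) (cc n K) ≤ ((n - K : ℕ) : ℝ) ^ 2 := by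
  have hn0 : (0 : ℝ) < n := by exact_mod_cast hn
  have : IsFiniteMeasure (volume.restrict (Bx n)) := by
    constructor
    rw [Measure.restrict_apply_univ, volume_Bx]
    exact ENNReal.ofReal_lt_top
  have hav : averageUnpierced n K (fun _ => -1) (fun _ => 1) (cc n K) =
      ((2 / (n : ℝ)) ^ 2)⁻¹ * ∫ w in Bx n, (unpierced n K (fun _ => -1) (fun _ => 1)
        (fun l => cc n K l + (-1) * w.1 + 1 * w.2) : ℝ) := by
    rw [← volume_real_Bx]
    unfold averageUnpierced
    rw [setAverage_eq, smul_eq_mul]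
    rfl
  rw [hav]
  have hpos : 0 < (2 / (n : ℝ)) ^ 2 := by positivity
  rw [inv_mul_le_iff₀ hpos, ← volume_real_Bx]
  have hconst : volume.real (Bx n) * ((n - K : ℕ) : ℝ) ^ 2 =
      ∫ w in Bx n, ((n - K : ℕ) : ℝ) ^ 2 := by
    rw [integral_const, measureReal_restrict_apply_univ, smul_eq_mul]
  rw [hconst]
  apply integral_mono_ae
  · simp_rw [unpierced_eq n K (fun _ => -1) (fun _ => 1) (cc n K)]
    exact integrable_finsetSum _ fun q _ =>
      (integrable_const (1 : ℝ)).indicator (isClosed_G _ _ _ _ _ q).measurableSet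
  · exact integrable_const _
  · have e0 := null_diag 0
    have e1 := null_diag (2 / n)
    have e2 := null_diag (-(2 / n))
    have a0 : ∀ᵐ w : ℝ × ℝ, ¬ (w.2 = w.1 + 0) := measure_eq_zero_iff_ae_notMem.1 e0
    have a1 : ∀ᵐ w : ℝ × ℝ, ¬ (w.2 = w.1 + 2 / n) := measure_eq_zero_iff_ae_notMem.1 e1
    have a2 : ∀ᵐ w : ℝ × ℝ, ¬ (w.2 = w.1 + -(2 / n)) := measure_eq_zero_iff_ae_notMem.1 e2
    filter_upwards [ae_restrict_mem (measurable_Bx n), ae_restrict_of_ae a0,
      ae_restrict_of_ae a1, ae_restrict_of_ae a2] with w hw h0 h1 h2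
    rw [add_zero] at h0
    have := upper_point (K := K) hn w hw h0 h1 h2
    exact_mod_cast this

end Sharp

/-- **The average law.** For every `n ≥ 1` and every `K`, the least possible value, over all families of
`K` lines in the plane, of the average over translation vectors `w ∈ [0, 2/n]²` of the number of
cells of `Q_n` left unpierced by the translated family is exactly `(n - K)²` (and `0` if `K > n`). -/
theorem result (n K : ℕ) (hn : 1 ≤ n) :
    IsLeast {x : ℝ | ∃ a b c : Fin K → ℝ, (∀ l, ¬ (a l = 0 ∧ b l = 0)) ∧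
      x = averageUnpierced n K a b c} (((n - K : ℕ) : ℝ) ^ 2) := by
  have hline : ∀ l : Fin K, ¬ ((fun _ : Fin K => (-1 : ℝ)) l = 0 ∧ (fun _ : Fin K => (1 : ℝ)) l = 0) :=
    fun l h => one_ne_zero h.2
  constructor
  · exact ⟨fun _ => -1, fun _ => 1, cc n K, hline, le_antisymm (lower hn _ _ _ hline) (upper hn)⟩
  · rintro x ⟨a, b, c, h1, rfl⟩
    exact lower hn a b c h1

end Pool.Agent.Results.MP_999027_co.AverageLaw
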