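import Mathlib

set_option autoImplicit false

namespace Pool.Agent.Results.MP_999027_co.NinetyDegreeSector

/-- The line `a x + b y = c` in the plane (a genuine line when `(a, b) ≠ (0, 0)`). -/
def line (a b c : ℝ) : Set (ℝ × ℝ) := {p | a * p.1 + b * p.2 = c}

/-- The interior of the cell of the `n × n` chessboard `Q_n` in `[-1, 1]²` in column `i` and row `j`
(`i, j` run over `0, …, n - 1`; this is the cell `c_{i+1, j+1}` of the problem). -/
def cellInterior (n : ℕ) (i j : Fin n) : Set (ℝ × ℝ) :=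
  {p | -1 + 2 * ((i : ℕ) : ℝ) / n < p.1 ∧ p.1 < -1 + 2 * (((i : ℕ) : ℝ) + 1) / n ∧
       -1 + 2 * ((j : ℕ) : ℝ) / n < p.2 ∧ p.2 < -1 + 2 * (((j : ℕ) : ℝ) + 1) / n}

/-- A set `L` (a line) pierces the cell `(i, j)` of `Q_n` if it meets the interior of the cell. -/
def Pierces (L : Set (ℝ × ℝ)) (n : ℕ) (i j : Fin n) : Prop := (L ∩ cellInterior n i j).Nonempty

/-! ### One-dimensional step -/

section OneDim

variable {ι : Type*} [Fintype ι]

open Classical in
/-- number of `l` with `B l p` -/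
noncomputable def cnt (B : ι → ℕ → Prop) (p : ℕ) : ℕ := (Finset.univ.filter (fun l => B l p)).card

/-- the largest `p ≤ card ι` with `p ≤ cnt B p` -/
noncomputable def top (B : ι → ℕ → Prop) : ℕ :=
  Nat.findGreatest (fun p => p ≤ cnt B p) (Fintype.card ι)

lemma cnt_le_card (B : ι → ℕ → Prop) (p : ℕ) : cnt B p ≤ Fintype.card ι := by
  classical
  unfold cnt
  exact Finset.card_le_univ _

lemma top_le (B : ι → ℕ → Prop) : top B ≤ Fintype.card ι := Nat.findGreatest_le _

lemma cnt_mono_of_imp {B C : ι → ℕ → Prop} {p q : ℕ} (h : ∀ l, B l p → C l q) :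
    cnt B p ≤ cnt C q := by
  classical
  unfold cnt
  apply Finset.card_le_card
  intro l hl
  simp only [Finset.mem_filter, Finset.mem_univ, true_and] at hl ⊢
  exact h l hl

lemma top_spec (B : ι → ℕ → Prop) (hmono : ∀ l p, B l p → B l (p + 1)) :
    cnt B (top B) = top B ∧ ∀ l, B l (top B + 1) → B l (top B) := by
  classical
  have h1 : top B ≤ cnt B (top B) := by
    have := Nat.findGreatest_spec (P := fun p => p ≤ cnt B p) (n := Fintype.card ι) (m := 0)
      (Nat.zero_le _) (Nat.zero_le _)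
    exact this
  have h2 : cnt B (top B + 1) ≤ top B := by
    by_cases hc : top B + 1 ≤ Fintype.card ι
    · have := Nat.findGreatest_is_greatest (P := fun p => p ≤ cnt B p) (n := Fintype.card ι)
        (k := top B + 1) (Nat.lt_succ_self _) hc
      simp only [not_le] at this
      omega
    · have := cnt_le_card B (top B + 1)
      omega
  have h3 : cnt B (top B) ≤ cnt B (top B + 1) := cnt_mono_of_imp (fun l h => hmono l _ h)
  refine ⟨by omega, ?_⟩
  intro l hl
  have hsub : (Finset.univ.filter (fun l => B l (top B))) ⊆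
      (Finset.univ.filter (fun l => B l (top B + 1))) := by
    intro l hl
    simp only [Finset.mem_filter, Finset.mem_univ, true_and] at hl ⊢
    exact hmono l _ hl
  have heq := Finset.eq_of_subset_of_card_le hsub (by
    change cnt B (top B + 1) ≤ cnt B (top B)
    omega)
  have : l ∈ (Finset.univ.filter (fun l => B l (top B + 1))) := by
    simp only [Finset.mem_filter, Finset.mem_univ, true_and]; exact hl
  rw [← heq] at this
  simpa only [Finset.mem_filter, Finset.mem_univ, true_and] using this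

lemma top_mono {B C : ι → ℕ → Prop} (h : ∀ l p, B l p → C l p) : top B ≤ top C := by
  unfold top
  apply Nat.findGreatest_mono_left
  intro p hp
  exact le_trans hp (cnt_mono_of_imp (fun l => h l p))

end OneDim

/-! ### The fixed point -/

lemma fixed_point (F : ℕ → ℕ) (hF : Monotone F) (b : ℕ) (hb : ∀ m, F m ≤ b) : ∃ m, F m = m := by
  classical
  have hex : ∃ m, F m ≤ m := ⟨b, hb b⟩
  let m0 := Nat.find hex
  have h0 : F m0 ≤ m0 := Nat.find_spec hex
  have h1 : F (F m0) ≤ F m0 := hF h0
  have h2 : m0 ≤ F m0 := Nat.find_min' hex h1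
  exact ⟨m0, le_antisymm h0 h2⟩

/-- Combinatorial core.  `B l i j` (`B' l i j`) says that the cell `(i, j)` lies on the far side of the
line `l`. -/
lemma core {ιP ιM : Type*} [Fintype ιP] [Fintype ιM]
    (B : ιP → ℤ → ℤ → Prop) (B' : ιM → ℤ → ℤ → Prop)
    (hB : ∀ l i j, B l i j → B l (i - 1) (j + 1))
    (hB' : ∀ l i j, B' l i j → B' l (i + 1) (j + 1))
    (hmono : IsEmpty ιP ∨ IsEmpty ιM ∨
      ((∀ l i j, B l i j → B l (i + 1) (j + 1)) ∧ (∀ l i j, B' l i j → B' l (i - 1) (j + 1))) ∨
      ((∀ l i j, B l (i + 1) (j + 1) → B l i j) ∧ (∀ l i j, B' l (i - 1) (j + 1) → B' l i j)))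
    (i0 j0 : ℤ) :
    ∃ p m : ℕ, p ≤ Fintype.card ιP ∧ m ≤ Fintype.card ιM ∧
      cnt (fun (l : ιP) (_ : ℕ) => B l (i0 + m - p) (j0 + m + p)) 0 = p ∧
      cnt (fun (l : ιM) (_ : ℕ) => B' l (i0 + m - p) (j0 + m + p)) 0 = m ∧
      (∀ l, ¬ B l (i0 + m - p) (j0 + m + p) → ¬ B l (i0 + m - p - 1) (j0 + m + p + 1)) ∧
      (∀ l, ¬ B' l (i0 + m - p) (j0 + m + p) → ¬ B' l (i0 + m - p + 1) (j0 + m + p + 1)) := by
  classical
  let BP : ℕ → ιP → ℕ → Prop := fun m l p => B l (i0 + m - p) (j0 + m + p)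
  let BM : ℕ → ιM → ℕ → Prop := fun p l m => B' l (i0 + m - p) (j0 + m + p)
  let f : ℕ → ℕ := fun m => top (BP m)
  let g : ℕ → ℕ := fun p => top (BM p)
  have hfix : ∃ m, g (f m) = m := by
    rcases hmono with h | h | ⟨h1, h2⟩ | ⟨h1, h2⟩
    · -- no P lines: `f` is constantly `0`
      have hf : ∀ m, f m = 0 := by
        intro m
        have h0 : f m ≤ Fintype.card ιP := top_le (BP m)
        rw [Fintype.card_eq_zero] at h0
        omega
      exact ⟨g 0, by rw [hf]⟩
    · -- no M lines: `g` is constantly `0`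
      have hg : ∀ p, g p = 0 := by
        intro p
        have h0 : g p ≤ Fintype.card ιM := top_le (BM p)
        rw [Fintype.card_eq_zero] at h0
        omega
      exact ⟨0, hg _⟩
    · apply fixed_point (fun m => g (f m)) _ (Fintype.card ιM) (fun m => top_le _)
      have hf : Monotone f := by
        apply monotone_nat_of_le_succ
        intro m
        apply top_mono
        intro l p hl
        have := h1 l _ _ hl
        have e1 : i0 + (m : ℤ) - p + 1 = i0 + ((m + 1 : ℕ) : ℤ) - p := by push_cast; ring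
        have e2 : j0 + (m : ℤ) + p + 1 = j0 + ((m + 1 : ℕ) : ℤ) + p := by push_cast; ring
        rw [e1, e2] at this
        exact this
      have hg : Monotone g := by
        apply monotone_nat_of_le_succ
        intro p
        apply top_mono
        intro l m hl
        have := h2 l _ _ hl
        have e1 : i0 + (m : ℤ) - p - 1 = i0 + (m : ℤ) - ((p + 1 : ℕ) : ℤ) := by push_cast; ring
        have e2 : j0 + (m : ℤ) + p + 1 = j0 + (m : ℤ) + ((p + 1 : ℕ) : ℤ) := by push_cast; ring
        rw [e1, e2] at this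
        exact this
      exact hg.comp hf
    · apply fixed_point (fun m => g (f m)) _ (Fintype.card ιM) (fun m => top_le _)
      have hf : Antitone f := by
        apply antitone_nat_of_succ_le
        intro m
        apply top_mono
        intro l p hl
        apply h1 l
        have e1 : i0 + (m : ℤ) - p + 1 = i0 + ((m + 1 : ℕ) : ℤ) - p := by push_cast; ring
        have e2 : j0 + (m : ℤ) + p + 1 = j0 + ((m + 1 : ℕ) : ℤ) + p := by push_cast; ring
        rw [e1, e2]
        exact hl
      have hg : Antitone g := by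
        apply antitone_nat_of_succ_le
        intro p
        apply top_mono
        intro l m hl
        apply h2 l
        have e1 : i0 + (m : ℤ) - p - 1 = i0 + (m : ℤ) - ((p + 1 : ℕ) : ℤ) := by push_cast; ring
        have e2 : j0 + (m : ℤ) + p + 1 = j0 + (m : ℤ) + ((p + 1 : ℕ) : ℤ) := by push_cast; ring
        rw [e1, e2]
        exact hl
      exact hg.comp hf
  obtain ⟨m, hm⟩ := hfix
  have hPm : ∀ l p, BP m l p → BP m l (p + 1) := by
    intro l p hl
    have := hB l _ _ hl
    have e1 : i0 + (m : ℤ) - p - 1 = i0 + (m : ℤ) - ((p + 1 : ℕ) : ℤ) := by push_cast; ring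
    have e2 : j0 + (m : ℤ) + p + 1 = j0 + (m : ℤ) + ((p + 1 : ℕ) : ℤ) := by push_cast; ring
    rw [e1, e2] at this
    exact this
  have hMp : ∀ l m', BM (f m) l m' → BM (f m) l (m' + 1) := by
    intro l m' hl
    have := hB' l _ _ hl
    have e1 : i0 + (m' : ℤ) - (f m : ℤ) + 1 = i0 + ((m' + 1 : ℕ) : ℤ) - (f m : ℤ) := by
      push_cast; ring
    have e2 : j0 + (m' : ℤ) + (f m : ℤ) + 1 = j0 + ((m' + 1 : ℕ) : ℤ) + (f m : ℤ) := by
      push_cast; ring
    rw [e1, e2] at this
    exact this
  obtain ⟨hp1, hp2⟩ := top_spec (BP m) hPm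
  obtain ⟨hm1, hm2⟩ := top_spec (BM (f m)) hMp
  have htm : top (BM (f m)) = m := hm
  rw [htm] at hm1 hm2
  refine ⟨f m, m, top_le _, ?_, ?_, ?_, ?_, ?_⟩
  · rw [← hm]; exact top_le _
  · exact hp1
  · exact hm1
  · intro l hl hcon
    apply hl
    apply hp2 l
    have e1 : i0 + (m : ℤ) - (f m : ℤ) - 1 = i0 + (m : ℤ) - ((f m + 1 : ℕ) : ℤ) := by
      push_cast; ring
    have e2 : j0 + (m : ℤ) + (f m : ℤ) + 1 = j0 + (m : ℤ) + ((f m + 1 : ℕ) : ℤ) := by
      push_cast; ring
    rw [e1, e2] at hcon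
    exact hcon
  · intro l hl hcon
    apply hl
    apply hm2 l
    have e1 : i0 + (m : ℤ) - (f m : ℤ) + 1 = i0 + ((m + 1 : ℕ) : ℤ) - (f m : ℤ) := by
      push_cast; ring
    have e2 : j0 + (m : ℤ) + (f m : ℤ) + 1 = j0 + ((m + 1 : ℕ) : ℤ) + (f m : ℤ) := by
      push_cast; ring
    rw [e1, e2] at hcon
    exact hcon

/-! ### Geometry -/

/-- If all points of the (scaled) cell are strictly on one side, the cell is not pierced. -/
lemma not_pierces_of_side {n : ℕ} (i j : Fin n) (a b c : ℝ)
    (h : ∀ X Y : ℝ, ((i : ℕ) : ℝ) < X → X < ((i : ℕ) : ℝ) + 1 → ((j : ℕ) : ℝ) < Y →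
      Y < ((j : ℕ) : ℝ) + 1 → a * X + b * Y ≠ (c + a + b) * n / 2) :
    ¬ Pierces (line a b c) n i j := by
  rintro ⟨⟨x, y⟩, hl, h1, h2, h3, h4⟩
  have hn : (0 : ℝ) < n := by
    have : 0 < n := lt_of_le_of_lt (Nat.zero_le _) i.2
    exact_mod_cast this
  simp only at h1 h2 h3 h4
  have hl' : a * x + b * y = c := hl
  apply h ((x + 1) * n / 2) ((y + 1) * n / 2)
  · have := (div_lt_iff₀ hn).1 (by linarith : 2 * ((i : ℕ) : ℝ) / n < x + 1)
    linarith
  · have := (lt_div_iff₀ hn).1 (by linarith : x + 1 < 2 * (((i : ℕ) : ℝ) + 1) / n)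
    linarith
  · have := (div_lt_iff₀ hn).1 (by linarith : 2 * ((j : ℕ) : ℝ) / n < y + 1)
    linarith
  · have := (lt_div_iff₀ hn).1 (by linarith : y + 1 < 2 * (((j : ℕ) : ℝ) + 1) / n)
    linarith
  · rw [← hl']; ring

/-- A scaled witness point gives a pierced cell. -/
lemma pierces_of_point {n : ℕ} (i j : Fin n) (a b c X Y : ℝ)
    (h1 : ((i : ℕ) : ℝ) < X) (h2 : X < ((i : ℕ) : ℝ) + 1) (h3 : ((j : ℕ) : ℝ) < Y)
    (h4 : Y < ((j : ℕ) : ℝ) + 1) (h : a * X + b * Y = (c + a + b) * n / 2) :
    Pierces (line a b c) n i j := by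
  have hn : (0 : ℝ) < n := by
    have : 0 < n := lt_of_le_of_lt (Nat.zero_le _) i.2
    exact_mod_cast this
  refine ⟨(-1 + 2 * X / n, -1 + 2 * Y / n), ?_, ?_, ?_, ?_, ?_⟩
  · change a * (-1 + 2 * X / n) + b * (-1 + 2 * Y / n) = c
    have : a * (-1 + 2 * X / n) + b * (-1 + 2 * Y / n) = 2 * (a * X + b * Y) / n - a - b := by
      field_simp; ring
    rw [this, h]
    field_simp
    ring
  · simp only
    have : 2 * ((i : ℕ) : ℝ) / n < 2 * X / n := by gcongr
    linarith
  · simp only
    have : 2 * X / n < 2 * (((i : ℕ) : ℝ) + 1) / n := by gcongr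
    linarith
  · simp only
    have : 2 * ((j : ℕ) : ℝ) / n < 2 * Y / n := by gcongr
    linarith
  · simp only
    have : 2 * Y / n < 2 * (((j : ℕ) : ℝ) + 1) / n := by gcongr
    linarith

lemma exists_gamma_P (a b c' : ℝ) (h : a * b ≤ 0) :
    ∃ γ : ℝ, ∀ X Y : ℝ, a * X + b * Y = c' → |a| * X - |b| * Y = γ := by
  rcases mul_nonpos_iff.1 h with ⟨h1, h2⟩ | ⟨h1, h2⟩
  · refine ⟨c', fun X Y hXY => ?_⟩
    rw [abs_of_nonneg h1, abs_of_nonpos h2]; linarith
  · refine ⟨-c', fun X Y hXY => ?_⟩
    rw [abs_of_nonpos h1, abs_of_nonneg h2]; linarith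

lemma exists_gamma_M (a b c' : ℝ) (h : 0 ≤ a * b) :
    ∃ γ : ℝ, ∀ X Y : ℝ, a * X + b * Y = c' → |a| * X + |b| * Y = γ := by
  rcases mul_nonneg_iff.1 h with ⟨h1, h2⟩ | ⟨h1, h2⟩
  · refine ⟨c', fun X Y hXY => ?_⟩
    rw [abs_of_nonneg h1, abs_of_nonneg h2]; linarith
  · refine ⟨-c', fun X Y hXY => ?_⟩
    rw [abs_of_nonpos h1, abs_of_nonpos h2]; linarith

/-- The four closed 90-degree sectors of directions bounded by directions of sides or diagonals:
`0`: `|a| ≤ |b|` (angle with the `x`-axis at most 45 degrees), `1`: `|b| ≤ |a|` (angle with the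
`y`-axis at most 45 degrees), `2`: `a b ≤ 0` (slope in `[0, ∞]`), `3`: `0 ≤ a b` (slope in `[-∞, 0]`).
-/
def InSector (s : Fin 4) (a b : ℝ) : Prop :=
  (s = 0 ∧ |a| ≤ |b|) ∨ (s = 1 ∧ |b| ≤ |a|) ∨ (s = 2 ∧ a * b ≤ 0) ∨ (s = 3 ∧ 0 ≤ a * b)

/-- Number of cells of `Q_n` pierced by none of the `K` lines `a l x + b l y = c l`. -/
noncomputable def unpierced (n K : ℕ) (a b c : Fin K → ℝ) : ℕ :=
  Nat.card {q : Fin n × Fin n // ∀ l, ¬ Pierces (line (a l) (b l) (c l)) n q.1 q.2}

theorem lower (n K : ℕ) (a b c : Fin K → ℝ) (hline : ∀ l, ¬ (a l = 0 ∧ b l = 0)) (s : Fin 4)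
    (hs : ∀ l, InSector s (a l) (b l)) : (n - K) ^ 2 ≤ unpierced n K a b c := by
  classical
  -- choose the two groups of lines; horizontal / vertical lines may go to either group
  -- sector 3 : all lines in the M group; otherwise P = (ab ≤ 0)
  let isP : Fin K → Prop := fun l => s ≠ 3 ∧ a l * b l ≤ 0
  have hM : ∀ l, ¬ isP l → 0 ≤ a l * b l := by
    intro l hl
    by_cases h3 : s = 3
    · rcases hs l with h | h | h | h
      · omega
      · omega
      · omega
      · exact h.2
    · by_contra hcon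
      exact hl ⟨h3, by linarith⟩
  have hP : ∀ l, isP l → a l * b l ≤ 0 := fun l hl => hl.2
  choose γP hγP using fun l : {l // isP l} => exists_gamma_P (a l.1) (b l.1)
    ((c l.1 + a l.1 + b l.1) * n / 2) (hP l.1 l.2)
  choose γM hγM using fun l : {l // ¬ isP l} => exists_gamma_M (a l.1) (b l.1)
    ((c l.1 + a l.1 + b l.1) * n / 2) (hM l.1 l.2)
  let B : {l // isP l} → ℤ → ℤ → Prop := fun l i j =>
    |a l.1| * ((i : ℝ) + 1) - |b l.1| * (j : ℝ) ≤ γP l
  let B' : {l // ¬ isP l} → ℤ → ℤ → Prop := fun l i j =>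
    γM l ≤ |a l.1| * (i : ℝ) + |b l.1| * (j : ℝ)
  have hB : ∀ l i j, B l i j → B l (i - 1) (j + 1) := by
    intro l i j h
    simp only [B] at h ⊢
    push_cast
    have ha := abs_nonneg (a l.1)
    have hb := abs_nonneg (b l.1)
    nlinarith
  have hB' : ∀ l i j, B' l i j → B' l (i + 1) (j + 1) := by
    intro l i j h
    simp only [B'] at h ⊢
    push_cast
    have ha := abs_nonneg (a l.1)
    have hb := abs_nonneg (b l.1)
    nlinarith
  have hmono : IsEmpty {l // isP l} ∨ IsEmpty {l // ¬ isP l} ∨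
      ((∀ l i j, B l i j → B l (i + 1) (j + 1)) ∧ (∀ l i j, B' l i j → B' l (i - 1) (j + 1))) ∨
      ((∀ l i j, B l (i + 1) (j + 1) → B l i j) ∧ (∀ l i j, B' l (i - 1) (j + 1) → B' l i j)) := by
    have h4 : s = 0 ∨ s = 1 ∨ s = 2 ∨ s = 3 := by omega
    rcases h4 with h0 | h1 | h2 | h3
    · right; right; left
      have hab : ∀ l, |a l| ≤ |b l| := by
        intro l
        rcases hs l with h | h | h | h
        · exact h.2
        · omega
        · omega
        · omega
      constructor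
      · intro l i j h
        simp only [B] at h ⊢
        push_cast
        have := hab l.1
        nlinarith
      · intro l i j h
        simp only [B'] at h ⊢
        push_cast
        have := hab l.1
        nlinarith
    · right; right; right
      have hab : ∀ l, |b l| ≤ |a l| := by
        intro l
        rcases hs l with h | h | h | h
        · omega
        · exact h.2
        · omega
        · omega
      constructor
      · intro l i j h
        simp only [B] at h ⊢
        push_cast at h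
        have := hab l.1
        nlinarith
      · intro l i j h
        simp only [B'] at h ⊢
        push_cast at h
        have := hab l.1
        nlinarith
    · right; left
      refine ⟨fun l => l.2 ⟨by omega, ?_⟩⟩
      rcases hs l.1 with h | h | h | h
      · omega
      · omega
      · exact h.2
      · omega
    · left
      exact ⟨fun l => l.2.1 h3⟩
  by_cases hKn : n ≤ K
  · have : n - K = 0 := by omega
    rw [this]; simp
  rw [not_le] at hKn
  have hcard : Fintype.card {l // isP l} + Fintype.card {l // ¬ isP l} = K := by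
    rw [Fintype.card_subtype_compl, Fintype.card_fin]
    have := Fintype.card_subtype_le isP
    rw [Fintype.card_fin] at this
    omega
  set A := Fintype.card {l // isP l} with hA
  set M := Fintype.card {l // ¬ isP l} with hMdef
  -- the candidate cells
  have key : ∀ uv : Fin (n - K) × Fin (n - K), ∃ q : Fin n × Fin n,
      (∀ l, ¬ Pierces (line (a l) (b l) (c l)) n q.1 q.2) ∧
      ((uv.1 : ℕ) : ℤ) = (q.1 : ℕ) - A
        + cnt (fun (l : {l // isP l}) (_ : ℕ) => B l ((q.1 : ℕ) : ℤ) ((q.2 : ℕ) : ℤ)) 0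
        - cnt (fun (l : {l // ¬ isP l}) (_ : ℕ) => B' l ((q.1 : ℕ) : ℤ) ((q.2 : ℕ) : ℤ)) 0 ∧
      ((uv.2 : ℕ) : ℤ) = (q.2 : ℕ)
        - cnt (fun (l : {l // isP l}) (_ : ℕ) => B l ((q.1 : ℕ) : ℤ) ((q.2 : ℕ) : ℤ)) 0
        - cnt (fun (l : {l // ¬ isP l}) (_ : ℕ) => B' l ((q.1 : ℕ) : ℤ) ((q.2 : ℕ) : ℤ)) 0 := by
    rintro ⟨u, v⟩
    obtain ⟨p, m, hp, hm, hc1, hc2, hc3, hc4⟩ :=
      core B B' hB hB' hmono ((A : ℤ) + (u : ℕ)) ((v : ℕ) : ℤ)
    have hu := u.2
    have hv := v.2
    have hi0 : 0 ≤ (A : ℤ) + (u : ℕ) + m - p := by omega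
    have hi1 : (A : ℤ) + (u : ℕ) + m - p < n := by omega
    have hj0 : 0 ≤ ((v : ℕ) : ℤ) + m + p := by omega
    have hj1 : ((v : ℕ) : ℤ) + m + p < n := by omega
    obtain ⟨i, hi⟩ := Int.eq_ofNat_of_zero_le hi0
    obtain ⟨j, hj⟩ := Int.eq_ofNat_of_zero_le hj0
    have hin : i < n := by omega
    have hjn : j < n := by omega
    rw [hi, hj] at hc1 hc2 hc3 hc4
    refine ⟨(⟨i, hin⟩, ⟨j, hjn⟩), ?_, ?_, ?_⟩
    · intro l
      apply not_pierces_of_side
      intro X Y hX1 hX2 hY1 hY2 hXY
      simp only at hX1 hX2 hY1 hY2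
      by_cases hl : isP l
      · have hg := hγP ⟨l, hl⟩ X Y hXY
        simp only at hg
        have hpos : 0 < |a l| ∨ 0 < |b l| := by
          by_contra hcon
          rw [not_or, not_lt, not_lt] at hcon
          exact hline l ⟨abs_eq_zero.1 (le_antisymm hcon.1 (abs_nonneg _)),
            abs_eq_zero.1 (le_antisymm hcon.2 (abs_nonneg _))⟩
        have ha := abs_nonneg (a l)
        have hb := abs_nonneg (b l)
        by_cases hBl : B ⟨l, hl⟩ (i : ℤ) (j : ℤ)
        · simp only [B] at hBl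
          push_cast at hBl
          rcases hpos with h | h
          · have e1 : |a l| * X < |a l| * ((i : ℝ) + 1) := by
              apply mul_lt_mul_of_pos_left hX2 h
            have e2 : |b l| * (j : ℝ) ≤ |b l| * Y := mul_le_mul_of_nonneg_left hY1.le hb
            linarith
          · have e1 : |a l| * X ≤ |a l| * ((i : ℝ) + 1) := mul_le_mul_of_nonneg_left hX2.le ha
            have e2 : |b l| * (j : ℝ) < |b l| * Y := mul_lt_mul_of_pos_left hY1 h
            linarith
        · have h2 : ¬ B ⟨l, hl⟩ ((i : ℤ) - 1) ((j : ℤ) + 1) := hc3 ⟨l, hl⟩ hBl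
          simp only [B] at h2
          push_cast at h2
          rw [not_le] at h2
          have e1 : |a l| * (i : ℝ) ≤ |a l| * X := mul_le_mul_of_nonneg_left hX1.le ha
          have e2 : |b l| * Y ≤ |b l| * ((j : ℝ) + 1) := mul_le_mul_of_nonneg_left hY2.le hb
          have e3 : |a l| * ((i : ℝ) - 1 + 1) = |a l| * (i : ℝ) := by ring
          linarith
      · have hg := hγM ⟨l, hl⟩ X Y hXY
        simp only at hg
        have hpos : 0 < |a l| ∨ 0 < |b l| := by
          by_contra hcon
          rw [not_or, not_lt, not_lt] at hcon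
          exact hline l ⟨abs_eq_zero.1 (le_antisymm hcon.1 (abs_nonneg _)),
            abs_eq_zero.1 (le_antisymm hcon.2 (abs_nonneg _))⟩
        have ha := abs_nonneg (a l)
        have hb := abs_nonneg (b l)
        by_cases hBl : B' ⟨l, hl⟩ (i : ℤ) (j : ℤ)
        · simp only [B'] at hBl
          push_cast at hBl
          rcases hpos with h | h
          · have e1 : |a l| * (i : ℝ) < |a l| * X := mul_lt_mul_of_pos_left hX1 h
            have e2 : |b l| * (j : ℝ) ≤ |b l| * Y := mul_le_mul_of_nonneg_left hY1.le hb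
            linarith
          · have e1 : |a l| * (i : ℝ) ≤ |a l| * X := mul_le_mul_of_nonneg_left hX1.le ha
            have e2 : |b l| * (j : ℝ) < |b l| * Y := mul_lt_mul_of_pos_left hY1 h
            linarith
        · have h2 : ¬ B' ⟨l, hl⟩ ((i : ℤ) + 1) ((j : ℤ) + 1) := hc4 ⟨l, hl⟩ hBl
          simp only [B'] at h2
          push_cast at h2
          rw [not_le] at h2
          have e1 : |a l| * X ≤ |a l| * ((i : ℝ) + 1) := mul_le_mul_of_nonneg_left hX2.le ha
          have e2 : |b l| * Y ≤ |b l| * ((j : ℝ) + 1) := mul_le_mul_of_nonneg_left hY2.le hb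
          linarith
    · simp only
      rw [hc1, hc2]
      omega
    · simp only
      rw [hc1, hc2]
      omega
  choose F hF1 hF2 hF3 using key
  have hinj : Function.Injective (fun uv : Fin (n - K) × Fin (n - K) =>
      (⟨F uv, hF1 uv⟩ :
        {q : Fin n × Fin n // ∀ l, ¬ Pierces (line (a l) (b l) (c l)) n q.1 q.2})) := by
    intro x y hxy
    have hq : F x = F y := congrArg Subtype.val hxy
    have h1 : ((x.1 : ℕ) : ℤ) = ((y.1 : ℕ) : ℤ) := by rw [hF2 x, hF2 y, hq]
    have h2 : ((x.2 : ℕ) : ℤ) = ((y.2 : ℕ) : ℤ) := by rw [hF3 x, hF3 y, hq]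
    apply Prod.ext
    · apply Fin.ext; exact_mod_cast h1
    · apply Fin.ext; exact_mod_cast h2
  have hc := Nat.card_le_card_of_injective _ hinj
  rw [Nat.card_prod, Nat.card_fin] at hc
  unfold unpierced
  rw [pow_two]
  exact hc

lemma upper_count (n K : ℕ) (σ : Fin n ≃ Fin n) (P : Fin n × Fin n → Prop)
    (hP : ∀ q, P q → ((q.1 : ℕ) + K < (σ q.2 : ℕ) ∨ (σ q.2 : ℕ) + K ≤ (q.1 : ℕ))) :
    Nat.card {q // P q} ≤ (n - K) ^ 2 := by
  classical
  let φ : {q // P q} → Fin (n - K) × Fin (n - K) := fun q =>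
    if h : (q.1.1 : ℕ) + K < (σ q.1.2 : ℕ) then
      (⟨(q.1.1 : ℕ), by have := (σ q.1.2).2; omega⟩,
        ⟨(σ q.1.2 : ℕ) - K, by have := (σ q.1.2).2; omega⟩)
    else
      (⟨(q.1.1 : ℕ) - K, by
          have := q.1.1.2
          have h2 := hP q.1 q.2
          omega⟩,
        ⟨(σ q.1.2 : ℕ), by
          have := q.1.1.2
          have h2 := hP q.1 q.2
          omega⟩)
  have hφ : Function.Injective φ := by
    rintro ⟨⟨i, j⟩, hq⟩ ⟨⟨i', j'⟩, hq'⟩ h
    have h2 := hP _ hq
    have h2' := hP _ hq'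
    simp only at h2 h2'
    have hfin : (i : ℕ) = (i' : ℕ) ∧ ((σ j : Fin n) : ℕ) = ((σ j' : Fin n) : ℕ) := by
      by_cases hc : (i : ℕ) + K < (σ j : ℕ) <;> by_cases hc' : (i' : ℕ) + K < (σ j' : ℕ)
      · simp only [φ, hc, hc', dif_pos, Prod.mk.injEq, Fin.mk.injEq] at h
        omega
      · simp only [φ, hc, hc', dif_pos, dif_neg, Prod.mk.injEq, Fin.mk.injEq, not_false_eq_true]
          at h
        omega
      · simp only [φ, hc, hc', dif_pos, dif_neg, Prod.mk.injEq, Fin.mk.injEq, not_false_eq_true]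
          at h
        omega
      · simp only [φ, hc, hc', dif_neg, Prod.mk.injEq, Fin.mk.injEq, not_false_eq_true] at h
        omega
    have e1 : i = i' := Fin.ext hfin.1
    have e2 : j = j' := σ.injective (Fin.ext hfin.2)
    subst e1; subst e2; rfl
  have hc := Nat.card_le_card_of_injective φ hφ
  rw [Nat.card_prod, Nat.card_fin] at hc
  rw [pow_two]
  exact hc

/-- Sharpness: parallel diagonal lines. -/
theorem attained (n K : ℕ) (s : Fin 4) :
    ∃ a b c : Fin K → ℝ, (∀ l, ¬ (a l = 0 ∧ b l = 0)) ∧ (∀ l, InSector s (a l) (b l)) ∧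
      unpierced n K a b c ≤ (n - K) ^ 2 := by
  by_cases hs3 : s = 3
  · refine ⟨fun _ => 1, fun _ => 1,
      fun l => 2 * (n - (2 * ((l : ℕ) : ℝ) - K + 3 / 2)) / n - 2, ?_, ?_, ?_⟩
    · intro l h; exact one_ne_zero h.1
    · intro l
      right; right; right
      exact ⟨hs3, by norm_num⟩
    · unfold unpierced
      apply upper_count n K Fin.revPerm
      rintro ⟨i, j⟩ hq
      by_contra hcon
      rw [not_or] at hcon
      simp only [Fin.revPerm_apply, Fin.val_rev] at hcon
      have hi := i.2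
      have hj := j.2
      -- the index of a line piercing the cell
      have hl : (n + K - 2 - (i : ℕ) - (j : ℕ)) / 2 < K := by omega
      apply hq ⟨(n + K - 2 - (i : ℕ) - (j : ℕ)) / 2, hl⟩
      have hn : (0 : ℝ) < n := by
        have : 0 < n := lt_of_le_of_lt (Nat.zero_le _) i.2
        exact_mod_cast this
      set L : ℕ := (n + K - 2 - (i : ℕ) - (j : ℕ)) / 2 with hL
      have hcase : (2 * L + i + j + 2 = n + K) ∨ (2 * L + i + j + 3 = n + K) := by omega
      have hcaseR : (2 * (L : ℝ) + (i : ℕ) + (j : ℕ) + 2 = n + K) ∨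
          (2 * (L : ℝ) + (i : ℕ) + (j : ℕ) + 3 = n + K) := by
        rcases hcase with h | h
        · left; exact_mod_cast h
        · right; exact_mod_cast h
      apply pierces_of_point (X := ((i : ℕ) : ℝ) + 1 / 2 +
          ((n - (2 * (L : ℝ) - K + 3 / 2)) - ((i : ℕ) + (j : ℕ) + 1)) / 2)
        (Y := ((j : ℕ) : ℝ) + 1 / 2 +
          ((n - (2 * (L : ℝ) - K + 3 / 2)) - ((i : ℕ) + (j : ℕ) + 1)) / 2)
      · simp only; rcases hcaseR with h | h <;> linarith
      · simp only; rcases hcaseR with h | h <;> linarith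
      · simp only; rcases hcaseR with h | h <;> linarith
      · simp only; rcases hcaseR with h | h <;> linarith
      · simp only
        field_simp
        ring
  · refine ⟨fun _ => -1, fun _ => 1,
      fun l => 2 * (2 * ((l : ℕ) : ℝ) - K + 3 / 2) / n, ?_, ?_, ?_⟩
    · intro l h; exact one_ne_zero h.2
    · intro l
      have h4 : s = 0 ∨ s = 1 ∨ s = 2 := by omega
      rcases h4 with h | h | h
      · left; exact ⟨h, by norm_num⟩
      · right; left; exact ⟨h, by norm_num⟩
      · right; right; left; exact ⟨h, by norm_num⟩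
    · unfold unpierced
      apply upper_count n K (Equiv.refl _)
      rintro ⟨i, j⟩ hq
      by_contra hcon
      rw [not_or] at hcon
      simp only [Equiv.refl_apply] at hcon
      have hi := i.2
      have hj := j.2
      have hl : ((j : ℕ) + K - 1 - (i : ℕ)) / 2 < K := by omega
      apply hq ⟨((j : ℕ) + K - 1 - (i : ℕ)) / 2, hl⟩
      have hn : (0 : ℝ) < n := by
        have : 0 < n := lt_of_le_of_lt (Nat.zero_le _) i.2
        exact_mod_cast this
      set L : ℕ := ((j : ℕ) + K - 1 - (i : ℕ)) / 2 with hL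
      have hcase : (2 * L + i + 1 = j + K) ∨ (2 * L + i + 2 = j + K) := by omega
      have hcaseR : (2 * (L : ℝ) + (i : ℕ) + 1 = (j : ℕ) + K) ∨
          (2 * (L : ℝ) + (i : ℕ) + 2 = (j : ℕ) + K) := by
        rcases hcase with h | h
        · left; exact_mod_cast h
        · right; exact_mod_cast h
      apply pierces_of_point (X := ((i : ℕ) : ℝ) + 1 / 2 -
          ((2 * (L : ℝ) - K + 3 / 2) - ((j : ℕ) - (i : ℕ))) / 2)
        (Y := ((j : ℕ) : ℝ) + 1 / 2 +
          ((2 * (L : ℝ) - K + 3 / 2) - ((j : ℕ) - (i : ℕ))) / 2)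
      · simp only; rcases hcaseR with h | h <;> linarith
      · simp only; rcases hcaseR with h | h <;> linarith
      · simp only; rcases hcaseR with h | h <;> linarith
      · simp only; rcases hcaseR with h | h <;> linarith
      · simp only
        field_simp
        ring

/-- For lines whose directions all lie in one of the four closed 90-degree sectors bounded by
directions of sides and diagonals, the least possible number of unpierced cells of `Q_n` left by
`K ≤ n` lines is exactly `(n - K)²`.  (In particular fewer than `n` such lines never pierce all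
cells.) -/
theorem result (n K : ℕ) (s : Fin 4) :
    IsLeast {u : ℕ | ∃ a b c : Fin K → ℝ, (∀ l, ¬ (a l = 0 ∧ b l = 0)) ∧
      (∀ l, InSector s (a l) (b l)) ∧ u = unpierced n K a b c} ((n - K) ^ 2) := by
  constructor
  · obtain ⟨a, b, c, h1, h2, h3⟩ := attained n K s
    exact ⟨a, b, c, h1, h2, le_antisymm (lower n K a b c h1 s h2) h3⟩
  · rintro u ⟨a, b, c, h1, h2, rfl⟩
    exact lower n K a b c h1 s h2

end Pool.Agent.Results.MP_999027_co.NinetyDegreeSector
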