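import Pool.Agent.Helper52.Chess.Final

/-!
# More than three quarters of `n` lines are needed to pierce the chessboard
-/

set_option autoImplicit false

namespace Pool.Agent.Results.MP_999027_co.ThreeQuarters

/-- The line `a x + b y = c` in the plane (a genuine line when `(a, b) ≠ (0, 0)`). -/
def line (a b c : ℝ) : Set (ℝ × ℝ) := {p | a * p.1 + b * p.2 = c}

/-- The interior of the cell of the `n × n` chessboard `Q_n` in `[-1, 1]²` in column `i` and row `j`
(`i, j` run over `0, …, n - 1`; this is the cell `c_{i+1, j+1}` of the problem). -/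
def cellInterior (n : ℕ) (i j : Fin n) : Set (ℝ × ℝ) :=
  {p | -1 + 2 * ((i : ℕ) : ℝ) / n < p.1 ∧ p.1 < -1 + 2 * (((i : ℕ) : ℝ) + 1) / n ∧
       -1 + 2 * ((j : ℕ) : ℝ) / n < p.2 ∧ p.2 < -1 + 2 * (((j : ℕ) : ℝ) + 1) / n}

/-- A set `L` (a line) pierces the cell `(i, j)` of `Q_n` if it meets the interior of the cell. -/
def Pierces (L : Set (ℝ × ℝ)) (n : ℕ) (i j : Fin n) : Prop := (L ∩ cellInterior n i j).Nonempty

/-- There are `K` lines in the plane such that each of the `n²` cells of `Q_n` is pierced by at least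
one of them. -/
def Suffices (n K : ℕ) : Prop :=
  ∃ a b c : Fin K → ℝ, (∀ l, ¬ (a l = 0 ∧ b l = 0)) ∧
    ∀ i j : Fin n, ∃ l, Pierces (line (a l) (b l) (c l)) n i j

/-- The number `p_n`: the least number of lines piercing all cells of `Q_n`. -/
noncomputable def pierceNumber (n : ℕ) : ℕ := sInf {K | Suffices n K}

lemma suffices_self (n : ℕ) : Suffices n n := by
  refine ⟨fun _ => 1, fun _ => 0, fun l => -1 + (2 * ((l : ℕ) : ℝ) + 1) / n, fun l h => one_ne_zero h.1,
    fun i j => ⟨i, (-1 + (2 * ((i : ℕ) : ℝ) + 1) / n, -1 + (2 * ((j : ℕ) : ℝ) + 1) / n), ?_, ?_⟩⟩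
  · simp [line]
  · have hn : (0 : ℝ) < n := by exact_mod_cast Fin.pos i
    have h1 : ∀ x y : ℝ, x < y → -1 + x / n < -1 + y / n := by
      intro x y hxy
      have := div_lt_div_of_pos_right hxy hn
      linarith
    refine ⟨h1 _ _ (by linarith), h1 _ _ (by linarith), h1 _ _ (by linarith), h1 _ _ (by linarith)⟩

theorem result :
    (∀ n, Suffices n (pierceNumber n) ∧ ∀ K, Suffices n K → pierceNumber n ≤ K) ∧
    (∃ C : ℝ, ∀ n : ℕ, (7503 / 10000 : ℝ) * n - C ≤ pierceNumber n) ∧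
    ∃ N : ℕ, ∀ n ≥ N, (3 / 4 : ℝ) * n < pierceNumber n := by
  have hmin : ∀ n, Suffices n (pierceNumber n) ∧ ∀ K, Suffices n K → pierceNumber n ≤ K :=
    fun n => ⟨Nat.sInf_mem (s := {K | Suffices n K}) ⟨n, suffices_self n⟩, fun K hK => Nat.sInf_le hK⟩
  obtain ⟨C, hC, h⟩ := Pool.Agent.Helper52.Chess.lower_bound
  have hb : ∀ n : ℕ, (7503 / 10000 : ℝ) * n - C ≤ pierceNumber n := by
    intro n
    rcases Nat.eq_zero_or_pos n with rfl | hn
    · have : (0 : ℝ) ≤ pierceNumber 0 := Nat.cast_nonneg _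
      simp only [Nat.cast_zero, mul_zero]
      linarith
    · obtain ⟨a, b, c, hne, hall⟩ := (hmin n).1
      exact h n hn _ a b c hne hall
  refine ⟨hmin, ⟨C, hb⟩, ⌈C * 10000 / 3⌉₊ + 1, fun n hn => ?_⟩
  have h1 := hb n
  have h2 : (⌈C * 10000 / 3⌉₊ : ℝ) + 1 ≤ n := by exact_mod_cast hn
  have h3 := Nat.le_ceil (C * 10000 / 3)
  have h4 : C * 10000 / 3 < n := by linarith
  have h5 : C < 3 / 10000 * n := by
    rw [div_lt_iff₀ (by norm_num)] at h4
    linarith
  linarith

end Pool.Agent.Results.MP_999027_co.ThreeQuarters
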