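import Pool.Agent.Helper45.PW.Grid
import Pool.Agent.Results.MP_999027_co.NinetyDegreeSector

set_option autoImplicit false

namespace Pool.Agent.Results.MP_999027_co.TwoSectors

open PoolAgent.Helper45.PW

/-- The line `a x + b y = c` in the plane (a genuine line when `(a, b) ≠ (0, 0)`). -/
def line (a b c : ℝ) : Set (ℝ × ℝ) := {p | a * p.1 + b * p.2 = c}

/-- The interior of the cell of the `n × n` chessboard `Q_n` in `[-1, 1]²` in column `i` and row `j`
(`i, j` run over `0, …, n - 1`; this is the cell `c_{i+1, j+1}` of the problem). -/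
def cellInterior (n : ℕ) (i j : Fin n) : Set (ℝ × ℝ) :=
  {p | -1 + 2 * ((i : ℕ) : ℝ) / n < p.1 ∧ p.1 < -1 + 2 * (((i : ℕ) : ℝ) + 1) / n ∧
       -1 + 2 * ((j : ℕ) : ℝ) / n < p.2 ∧ p.2 < -1 + 2 * (((j : ℕ) : ℝ) + 1) / n}

/-- A set `L` (a line) pierces the cell `(i, j)` of `Q_n` if it meets the interior of the cell. -/
def Pierces (L : Set (ℝ × ℝ)) (n : ℕ) (i j : Fin n) : Prop := (L ∩ cellInterior n i j).Nonempty

/-- Number of cells of `Q_n` pierced by none of the `K` lines `a l x + b l y = c l`. -/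
noncomputable def unpierced (n K : ℕ) (a b c : Fin K → ℝ) : ℕ :=
  Nat.card {q : Fin n × Fin n // ∀ l, ¬ Pierces (line (a l) (b l) (c l)) n q.1 q.2}

/-- The four closed 45-degree sectors of directions bounded by directions of sides and diagonals, in
cyclic order; for the line `a x + b y = c` of slope `-a/b` they are: `0`: slope in `[0, 1]`,
`1`: slope in `[1, ∞]`, `2`: slope in `[-∞, -1]`, `3`: slope in `[-1, 0]`. -/
def Sector (s : Fin 4) (a b : ℝ) : Prop :=
  (s = 0 ∧ a * b ≤ 0 ∧ |a| ≤ |b|) ∨ (s = 1 ∧ a * b ≤ 0 ∧ |b| ≤ |a|) ∨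
  (s = 2 ∧ 0 ≤ a * b ∧ |b| ≤ |a|) ∨ (s = 3 ∧ 0 ≤ a * b ∧ |a| ≤ |b|)

/-- `a l x + b l y = c l` are genuine lines, each with its direction in the sector `s` or in the
sector `t`. -/
def InTwo {K : ℕ} (s t : Fin 4) (a b : Fin K → ℝ) : Prop :=
  (∀ l, ¬ (a l = 0 ∧ b l = 0)) ∧ ∀ l, Sector s (a l) (b l) ∨ Sector t (a l) (b l)

/-! ### Comparison with the definitions of the previous result -/

lemma unpierced_eq (n K : ℕ) (a b c : Fin K → ℝ) :
    unpierced n K a b c = NinetyDegreeSector.unpierced n K a b c := rfl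

lemma not_pierces_of_side {n : ℕ} (i j : Fin n) (a b c : ℝ)
    (h : ∀ X Y : ℝ, ((i : ℕ) : ℝ) < X → X < ((i : ℕ) : ℝ) + 1 → ((j : ℕ) : ℝ) < Y →
      Y < ((j : ℕ) : ℝ) + 1 → a * X + b * Y ≠ (c + a + b) * n / 2) :
    ¬ Pierces (line a b c) n i j := NinetyDegreeSector.not_pierces_of_side i j a b c h

lemma pierces_of_point {n : ℕ} (i j : Fin n) (a b c X Y : ℝ)
    (h1 : ((i : ℕ) : ℝ) < X) (h2 : X < ((i : ℕ) : ℝ) + 1) (h3 : ((j : ℕ) : ℝ) < Y)
    (h4 : Y < ((j : ℕ) : ℝ) + 1) (h : a * X + b * Y = (c + a + b) * n / 2) :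
    Pierces (line a b c) n i j := NinetyDegreeSector.pierces_of_point i j a b c X Y h1 h2 h3 h4 h

/-! ### Free cells are not pierced -/

lemma not_pierces_P {n : ℕ} (i j : Fin n) (a b c γ : ℝ) (hline : ¬ (a = 0 ∧ b = 0))
    (hγ : ∀ X Y : ℝ, a * X + b * Y = (c + a + b) * n / 2 → |a| * X - |b| * Y = γ)
    (h : |a| * (((i : ℕ) : ℝ) + 1) - |b| * ((j : ℕ) : ℝ) ≤ γ ∨
      γ < |a| * ((i : ℕ) : ℝ) - |b| * (((j : ℕ) : ℝ) + 1)) : ¬ Pierces (line a b c) n i j := by
  apply not_pierces_of_side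
  intro X Y hX1 hX2 hY1 hY2 hXY
  have hg := hγ X Y hXY
  have hpos : 0 < |a| ∨ 0 < |b| := by
    by_contra hcon
    rw [not_or, not_lt, not_lt] at hcon
    exact hline ⟨abs_eq_zero.1 (le_antisymm hcon.1 (abs_nonneg _)),
      abs_eq_zero.1 (le_antisymm hcon.2 (abs_nonneg _))⟩
  have ha := abs_nonneg a
  have hb := abs_nonneg b
  rcases h with hB | hB
  · rcases hpos with h | h
    · have e1 : |a| * X < |a| * (((i : ℕ) : ℝ) + 1) := mul_lt_mul_of_pos_left hX2 h
      have e2 : |b| * ((j : ℕ) : ℝ) ≤ |b| * Y := mul_le_mul_of_nonneg_left hY1.le hb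
      linarith
    · have e1 : |a| * X ≤ |a| * (((i : ℕ) : ℝ) + 1) := mul_le_mul_of_nonneg_left hX2.le ha
      have e2 : |b| * ((j : ℕ) : ℝ) < |b| * Y := mul_lt_mul_of_pos_left hY1 h
      linarith
  · have e1 : |a| * ((i : ℕ) : ℝ) ≤ |a| * X := mul_le_mul_of_nonneg_left hX1.le ha
    have e2 : |b| * Y ≤ |b| * (((j : ℕ) : ℝ) + 1) := mul_le_mul_of_nonneg_left hY2.le hb
    linarith

lemma not_pierces_M {n : ℕ} (i j : Fin n) (a b c γ : ℝ) (hline : ¬ (a = 0 ∧ b = 0))
    (hγ : ∀ X Y : ℝ, a * X + b * Y = (c + a + b) * n / 2 → |a| * X + |b| * Y = γ)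
    (h : γ ≤ |a| * ((i : ℕ) : ℝ) + |b| * ((j : ℕ) : ℝ) ∨
      |a| * (((i : ℕ) : ℝ) + 1) + |b| * (((j : ℕ) : ℝ) + 1) < γ) : ¬ Pierces (line a b c) n i j := by
  apply not_pierces_of_side
  intro X Y hX1 hX2 hY1 hY2 hXY
  have hg := hγ X Y hXY
  have hpos : 0 < |a| ∨ 0 < |b| := by
    by_contra hcon
    rw [not_or, not_lt, not_lt] at hcon
    exact hline ⟨abs_eq_zero.1 (le_antisymm hcon.1 (abs_nonneg _)),
      abs_eq_zero.1 (le_antisymm hcon.2 (abs_nonneg _))⟩
  have ha := abs_nonneg a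
  have hb := abs_nonneg b
  rcases h with hB | hB
  · rcases hpos with h | h
    · have e1 : |a| * ((i : ℕ) : ℝ) < |a| * X := mul_lt_mul_of_pos_left hX1 h
      have e2 : |b| * ((j : ℕ) : ℝ) ≤ |b| * Y := mul_le_mul_of_nonneg_left hY1.le hb
      linarith
    · have e1 : |a| * ((i : ℕ) : ℝ) ≤ |a| * X := mul_le_mul_of_nonneg_left hX1.le ha
      have e2 : |b| * ((j : ℕ) : ℝ) < |b| * Y := mul_lt_mul_of_pos_left hY1 h
      linarith
  · have e1 : |a| * X ≤ |a| * (((i : ℕ) : ℝ) + 1) := mul_le_mul_of_nonneg_left hX2.le ha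
    have e2 : |b| * Y ≤ |b| * (((j : ℕ) : ℝ) + 1) := mul_le_mul_of_nonneg_left hY2.le hb
    linarith

/-! ### The lower bound for steep ascending and flat descending lines -/

open Classical in
/-- number of indices with a property -/
noncomputable def cnt {ι : Type*} [Fintype ι] (Q : ι → Prop) : ℕ := (Finset.univ.filter Q).card

lemma cnt_le_card {ι : Type*} [Fintype ι] (Q : ι → Prop) : cnt Q ≤ Fintype.card ι :=
  Finset.card_le_univ _

lemma cnt_mono {ι : Type*} [Fintype ι] {Q R : ι → Prop} (h : ∀ l, Q l → R l) : cnt Q ≤ cnt R := by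
  classical
  unfold cnt
  apply Finset.card_le_card
  intro l hl
  simp only [Finset.mem_filter, Finset.mem_univ, true_and] at hl ⊢
  exact h l hl

lemma cnt_eq {ι : Type*} [Fintype ι] {Q R : ι → Prop} (h : ∀ l, Q l → R l) (hc : cnt Q = cnt R) :
    ∀ l, R l → Q l := by
  classical
  intro l hl
  have hsub : Finset.univ.filter Q ⊆ Finset.univ.filter R := by
    intro l hl
    simp only [Finset.mem_filter, Finset.mem_univ, true_and] at hl ⊢
    exact h l hl
  have heq := Finset.eq_of_subset_of_card_le hsub (by unfold cnt at hc; rw [hc])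
  have : l ∈ Finset.univ.filter R := by simp only [Finset.mem_filter, Finset.mem_univ, true_and]; exact hl
  rw [← heq] at this
  simpa only [Finset.mem_filter, Finset.mem_univ, true_and] using this

theorem lower13 (n K : ℕ) (hK : K + 2 ≤ n) (a b c : Fin K → ℝ) (h : InTwo 1 3 a b) :
    4 ≤ unpierced n K a b c := by
  classical
  obtain ⟨hline, hs⟩ := h
  let isP : Fin K → Prop := fun l => a l * b l ≤ 0 ∧ |b l| ≤ |a l|
  have hM : ∀ l, ¬ isP l → 0 ≤ a l * b l ∧ |a l| ≤ |b l| := by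
    intro l hl
    rcases hs l with h | h <;> rcases h with h | h | h | h
    · exact absurd h.1 (by decide)
    · exact absurd h.2 hl
    · exact absurd h.1 (by decide)
    · exact absurd h.1 (by decide)
    · exact absurd h.1 (by decide)
    · exact absurd h.1 (by decide)
    · exact absurd h.1 (by decide)
    · exact h.2
  choose γP hγP using fun l : {l // isP l} => NinetyDegreeSector.exists_gamma_P (a l.1) (b l.1)
    ((c l.1 + a l.1 + b l.1) * n / 2) l.2.1
  choose γM hγM using fun l : {l // ¬ isP l} => NinetyDegreeSector.exists_gamma_M (a l.1) (b l.1)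
    ((c l.1 + a l.1 + b l.1) * n / 2) (hM l.1 l.2).1
  let B : ℤ → ℤ → {l // isP l} → Prop := fun i j l =>
    |a l.1| * ((i : ℝ) + 1) - |b l.1| * (j : ℝ) ≤ γP l
  let B' : ℤ → ℤ → {l // ¬ isP l} → Prop := fun i j l =>
    γM l ≤ |a l.1| * (i : ℝ) + |b l.1| * (j : ℝ)
  have hB1 : ∀ i j l, B i j l → B (i - 1) (j + 1) l := by
    intro i j l h
    simp only [B] at h ⊢
    push_cast
    have ha := abs_nonneg (a l.1)
    have hb := abs_nonneg (b l.1)
    nlinarith
  have hB1' : ∀ i j l, B' i j l → B' (i + 1) (j + 1) l := by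
    intro i j l h
    simp only [B'] at h ⊢
    push_cast
    have ha := abs_nonneg (a l.1)
    have hb := abs_nonneg (b l.1)
    nlinarith
  have hfld : Fld (fun i j => cnt (B i j)) (fun i j => cnt (B' i j)) (Fintype.card {l // isP l})
      (Fintype.card {l // ¬ isP l}) := by
    refine ⟨fun i j => cnt_le_card _, fun i j => cnt_le_card _, fun i j => cnt_mono (hB1 i j),
      fun i j => cnt_mono ?_, fun i j => cnt_mono ?_, fun i j => cnt_mono (hB1' i j),
      fun i j => cnt_mono ?_, fun i j => cnt_mono ?_⟩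
    · intro l h
      simp only [B] at h ⊢
      push_cast at h
      have := l.2.2
      nlinarith
    · intro l h
      simp only [B] at h ⊢
      push_cast
      have hb := abs_nonneg (b l.1)
      nlinarith
    · intro l h
      simp only [B'] at h ⊢
      push_cast
      have := (hM l.1 l.2).2
      nlinarith
    · intro l h
      simp only [B'] at h ⊢
      push_cast
      have ha := abs_nonneg (a l.1)
      nlinarith
  have hcard : Fintype.card {l // isP l} + Fintype.card {l // ¬ isP l} = K := by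
    rw [Fintype.card_subtype_compl, Fintype.card_fin]
    have := Fintype.card_subtype_le isP
    rw [Fintype.card_fin] at this
    omega
  set A := Fintype.card {l // isP l} with hA
  set M := Fintype.card {l // ¬ isP l} with hMdef
  -- a free cell is not pierced
  have hcell : ∀ r : ℤ × ℤ, (0 ≤ r.1 ∧ r.1 ≤ A + M + 1 ∧ 0 ≤ r.2 ∧ r.2 ≤ A + M + 1 ∧
      cnt (B r.1 r.2) = cnt (B (r.1 - 1) (r.2 + 1)) ∧ cnt (B' r.1 r.2) = cnt (B' (r.1 + 1) (r.2 + 1))) →
      ∃ q : Fin n × Fin n, ((q.1 : ℕ) : ℤ) = r.1 ∧ ((q.2 : ℕ) : ℤ) = r.2 ∧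
        ∀ l, ¬ Pierces (line (a l) (b l) (c l)) n q.1 q.2 := by
    rintro ⟨u, v⟩ ⟨h1, h2, h3, h4, h5, h6⟩
    simp only at h1 h2 h3 h4 h5 h6
    obtain ⟨i, hi⟩ := Int.eq_ofNat_of_zero_le h1
    obtain ⟨j, hj⟩ := Int.eq_ofNat_of_zero_le h3
    refine ⟨(⟨i, by omega⟩, ⟨j, by omega⟩), by simp [hi], by simp [hj], ?_⟩
    intro l
    by_cases hl : isP l
    · apply not_pierces_P _ _ (a l) (b l) (c l) (γP ⟨l, hl⟩) (hline l) (hγP ⟨l, hl⟩)
      by_cases hBl : B u v ⟨l, hl⟩
      · left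
        simp only [B] at hBl
        rw [hi, hj] at hBl
        push_cast at hBl
        exact hBl
      · right
        have h7 : ¬ B (u - 1) (v + 1) ⟨l, hl⟩ := fun h8 => hBl (cnt_eq (hB1 u v) h5 _ h8)
        simp only [B] at h7
        rw [hi, hj] at h7
        push_cast at h7
        rw [not_le] at h7
        simp only
        have e3 : |a l| * ((i : ℝ) - 1 + 1) = |a l| * (i : ℝ) := by ring
        rw [e3] at h7
        exact h7
    · apply not_pierces_M _ _ (a l) (b l) (c l) (γM ⟨l, hl⟩) (hline l) (hγM ⟨l, hl⟩)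
      by_cases hBl : B' u v ⟨l, hl⟩
      · left
        simp only [B'] at hBl
        rw [hi, hj] at hBl
        push_cast at hBl
        exact hBl
      · right
        have h7 : ¬ B' (u + 1) (v + 1) ⟨l, hl⟩ := fun h8 => hBl (cnt_eq (hB1' u v) h6 _ h8)
        simp only [B'] at h7
        rw [hi, hj] at h7
        push_cast at h7
        rw [not_le] at h7
        exact h7
  -- two cells of each colour
  have hcol : ∀ g : ℤ, (g = 0 ∨ g = 1) → ∃ q q' : Fin n × Fin n, q ≠ q' ∧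
      (∀ l, ¬ Pierces (line (a l) (b l) (c l)) n q.1 q.2) ∧
      (∀ l, ¬ Pierces (line (a l) (b l) (c l)) n q'.1 q'.2) ∧
      (((q.1 : ℕ) : ℤ) + ((q.2 : ℕ) : ℤ) - A - g) % 2 = 0 ∧
      (((q'.1 : ℕ) : ℤ) + ((q'.2 : ℕ) : ℤ) - A - g) % 2 = 0 := by
    intro g hg
    obtain ⟨r, r', hne, hr⟩ := grid hfld g hg
    obtain ⟨a1, a2, a3, a4, a5, a6, a7⟩ := hr r (Or.inl rfl)
    obtain ⟨b1, b2, b3, b4, b5, b6, b7⟩ := hr r' (Or.inr rfl)
    obtain ⟨q, hq1, hq2, hq3⟩ := hcell r ⟨a1, a2, a3, a4, a6, a7⟩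
    obtain ⟨q', hq1', hq2', hq3'⟩ := hcell r' ⟨b1, b2, b3, b4, b6, b7⟩
    refine ⟨q, q', ?_, hq3, hq3', ?_, ?_⟩
    · rintro rfl
      exact hne (Prod.ext (by rw [← hq1, ← hq1']) (by rw [← hq2, ← hq2']))
    · rw [hq1, hq2]; exact a5
    · rw [hq1', hq2']; exact b5
  obtain ⟨q1, q2, h12, u1, u2, p1, p2⟩ := hcol 0 (Or.inl rfl)
  obtain ⟨q3, q4, h34, u3, u4, p3, p4⟩ := hcol 1 (Or.inr rfl)
  have h13 : q1 ≠ q3 := by rintro rfl; omega
  have h14 : q1 ≠ q4 := by rintro rfl; omega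
  have h23 : q2 ≠ q3 := by rintro rfl; omega
  have h24 : q2 ≠ q4 := by rintro rfl; omega
  unfold unpierced
  rw [Nat.card_eq_fintype_card, Fintype.card_subtype]
  have hsub : ({q1, q2, q3, q4} : Finset (Fin n × Fin n)) ⊆
      Finset.univ.filter (fun q => ∀ l, ¬ Pierces (line (a l) (b l) (c l)) n q.1 q.2) := by
    intro q hq
    simp only [Finset.mem_insert, Finset.mem_singleton] at hq
    simp only [Finset.mem_filter, Finset.mem_univ, true_and]
    rcases hq with rfl | rfl | rfl | rfl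
    · exact u1
    · exact u2
    · exact u3
    · exact u4
  have h4 : ({q1, q2, q3, q4} : Finset (Fin n × Fin n)).card = 4 := by
    rw [Finset.card_insert_of_notMem, Finset.card_insert_of_notMem, Finset.card_insert_of_notMem,
      Finset.card_singleton]
    · simpa using h34
    · simp [h23, h24]
    · simp [h12, h13, h14]
  rw [← h4]
  exact Finset.card_le_card hsub

/-! ### Reflection -/

lemma pierces_reflect' {n : ℕ} (i j : Fin n) (a b c : ℝ) (h : Pierces (line a b c) n i j) :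
    Pierces (line (-a) b c) n (Fin.rev i) j := by
  obtain ⟨⟨x, y⟩, hl, h1, h2, h3, h4⟩ := h
  have hn0 : 0 < n := lt_of_le_of_lt (Nat.zero_le _) i.2
  have hn : (0 : ℝ) < n := by exact_mod_cast hn0
  have hl' : a * x + b * y = c := hl
  simp only at h1 h2 h3 h4
  have hrev : ((Fin.rev i : ℕ) : ℝ) = n - ((i : ℕ) : ℝ) - 1 := by
    rw [Fin.val_rev]
    have : (i : ℕ) + 1 ≤ n := i.2
    rw [Nat.cast_sub this]
    push_cast; ring
  refine ⟨(-x, y), ?_, ?_, ?_, h3, h4⟩
  · change -a * -x + b * y = c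
    linarith
  · simp only
    rw [hrev]
    have e : 2 * ((n : ℝ) - ((i : ℕ) : ℝ) - 1) / n = 2 - 2 * (((i : ℕ) : ℝ) + 1) / n := by
      field_simp; ring
    rw [e]
    linarith
  · simp only
    rw [hrev]
    have e : 2 * ((n : ℝ) - ((i : ℕ) : ℝ) - 1 + 1) / n = 2 - 2 * ((i : ℕ) : ℝ) / n := by
      field_simp; ring
    rw [e]
    linarith

lemma pierces_reflect {n : ℕ} (i j : Fin n) (a b c : ℝ) :
    Pierces (line (-a) b c) n (Fin.rev i) j ↔ Pierces (line a b c) n i j := by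
  constructor
  · intro h
    have := pierces_reflect' _ _ _ _ _ h
    rwa [neg_neg, Fin.rev_rev] at this
  · exact pierces_reflect' i j a b c

lemma unpierced_reflect (n K : ℕ) (a b c : Fin K → ℝ) :
    unpierced n K (fun l => -a l) b c = unpierced n K a b c := by
  unfold unpierced
  apply Nat.card_congr
  refine (Equiv.prodCongr Fin.revPerm (Equiv.refl _)).subtypeEquiv ?_
  rintro ⟨i, j⟩
  apply forall_congr'
  intro l
  apply not_congr
  simp only [Equiv.prodCongr_apply, Prod.map_apply, Fin.revPerm_apply, Equiv.refl_apply]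
  have := pierces_reflect (Fin.rev i) j (a l) (b l) (c l)
  rwa [Fin.rev_rev] at this

lemma inTwo_swap {K : ℕ} {s t : Fin 4} {a b : Fin K → ℝ} (h : InTwo s t a b) : InTwo t s a b :=
  ⟨h.1, fun l => (h.2 l).symm⟩

lemma sector_reflect {s : Fin 4} {a b : ℝ} (h : Sector s a b) : Sector (3 - s) (-a) b := by
  unfold Sector at *
  rw [neg_mul, abs_neg]
  rcases h with ⟨rfl, h1, h2⟩ | ⟨rfl, h1, h2⟩ | ⟨rfl, h1, h2⟩ | ⟨rfl, h1, h2⟩
  · right; right; right; exact ⟨by decide, by linarith, h2⟩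
  · right; right; left; exact ⟨by decide, by linarith, h2⟩
  · right; left; exact ⟨by decide, by linarith, h2⟩
  · left; exact ⟨by decide, by linarith, h2⟩

lemma inTwo_reflect {K : ℕ} {s t : Fin 4} {a b : Fin K → ℝ} (h : InTwo s t a b) :
    InTwo (3 - s) (3 - t) (fun l => -a l) b := by
  refine ⟨fun l hl => h.1 l ⟨by linarith [hl.1], hl.2⟩, fun l => ?_⟩
  rcases h.2 l with h1 | h1
  · left; exact sector_reflect h1
  · right; exact sector_reflect h1

theorem lower_opposite (n K : ℕ) (hK : K + 2 ≤ n) (s : Fin 4) (a b c : Fin K → ℝ)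
    (h : InTwo s (s + 2) a b) : 4 ≤ unpierced n K a b c := by
  have hs : s = 0 ∨ s = 1 ∨ s = 2 ∨ s = 3 := by omega
  rcases hs with rfl | rfl | rfl | rfl
  · rw [← unpierced_reflect]
    exact lower13 n K hK _ b c (inTwo_swap (inTwo_reflect h))
  · exact lower13 n K hK a b c h
  · rw [← unpierced_reflect]
    exact lower13 n K hK _ b c (inTwo_reflect h)
  · exact lower13 n K hK a b c (inTwo_swap h)

lemma inSector_of_adjacent {s t : Fin 4} (hst : t ≠ s + 2) :
    ∃ r : Fin 4, ∀ a b : ℝ, (Sector s a b ∨ Sector t a b) → NinetyDegreeSector.InSector r a b := by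
  have hs : s = 0 ∨ s = 1 ∨ s = 2 ∨ s = 3 := by omega
  have ht : t = 0 ∨ t = 1 ∨ t = 2 ∨ t = 3 := by omega
  have f01 : ¬ (0 : Fin 4) = 1 := by decide
  have f02 : ¬ (0 : Fin 4) = 2 := by decide
  have f03 : ¬ (0 : Fin 4) = 3 := by decide
  have f12 : ¬ (1 : Fin 4) = 2 := by decide
  have f13 : ¬ (1 : Fin 4) = 3 := by decide
  have f23 : ¬ (2 : Fin 4) = 3 := by decide
  have f10 : ¬ (1 : Fin 4) = 0 := by decide
  have f20 : ¬ (2 : Fin 4) = 0 := by decide
  have f30 : ¬ (3 : Fin 4) = 0 := by decide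
  have f21 : ¬ (2 : Fin 4) = 1 := by decide
  have f31 : ¬ (3 : Fin 4) = 1 := by decide
  have f32 : ¬ (3 : Fin 4) = 2 := by decide
  rcases hs with rfl | rfl | rfl | rfl <;> rcases ht with rfl | rfl | rfl | rfl
  · refine ⟨2, fun a b h => ?_⟩
    simp only [Sector, NinetyDegreeSector.InSector] at h ⊢
    tauto
  · refine ⟨2, fun a b h => ?_⟩
    simp only [Sector, NinetyDegreeSector.InSector] at h ⊢
    tauto
  · exact absurd rfl hst
  · refine ⟨0, fun a b h => ?_⟩
    simp only [Sector, NinetyDegreeSector.InSector] at h ⊢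
    tauto
  · refine ⟨2, fun a b h => ?_⟩
    simp only [Sector, NinetyDegreeSector.InSector] at h ⊢
    tauto
  · refine ⟨2, fun a b h => ?_⟩
    simp only [Sector, NinetyDegreeSector.InSector] at h ⊢
    tauto
  · refine ⟨1, fun a b h => ?_⟩
    simp only [Sector, NinetyDegreeSector.InSector] at h ⊢
    tauto
  · exact absurd rfl hst
  · exact absurd rfl hst
  · refine ⟨1, fun a b h => ?_⟩
    simp only [Sector, NinetyDegreeSector.InSector] at h ⊢
    tauto
  · refine ⟨1, fun a b h => ?_⟩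
    simp only [Sector, NinetyDegreeSector.InSector] at h ⊢
    tauto
  · refine ⟨3, fun a b h => ?_⟩
    simp only [Sector, NinetyDegreeSector.InSector] at h ⊢
    tauto
  · refine ⟨0, fun a b h => ?_⟩
    simp only [Sector, NinetyDegreeSector.InSector] at h ⊢
    tauto
  · exact absurd rfl hst
  · refine ⟨3, fun a b h => ?_⟩
    simp only [Sector, NinetyDegreeSector.InSector] at h ⊢
    tauto
  · refine ⟨3, fun a b h => ?_⟩
    simp only [Sector, NinetyDegreeSector.InSector] at h ⊢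
    tauto

theorem lower_adjacent (n K : ℕ) (s t : Fin 4) (hst : t ≠ s + 2) (a b c : Fin K → ℝ)
    (h : InTwo s t a b) : (n - K) ^ 2 ≤ unpierced n K a b c := by
  obtain ⟨r, hr⟩ := inSector_of_adjacent hst
  rw [unpierced_eq]
  exact NinetyDegreeSector.lower n K a b c h.1 r (fun l => hr _ _ (h.2 l))

/-! ### Constructions -/

lemma unpierced_zero {n K : ℕ} {a b c : Fin K → ℝ}
    (h : ∀ i j : Fin n, ∃ l, Pierces (line (a l) (b l) (c l)) n i j) : unpierced n K a b c = 0 := by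
  unfold unpierced
  have : IsEmpty {q : Fin n × Fin n // ∀ l, ¬ Pierces (line (a l) (b l) (c l)) n q.1 q.2} := by
    refine ⟨fun q => ?_⟩
    obtain ⟨l, hl⟩ := h q.1.1 q.1.2
    exact q.2 l hl
  exact Nat.card_of_isEmpty

/-- `n` parallel lines. -/
theorem upper_adjacent (n : ℕ) (hn : 1 ≤ n) (s t : Fin 4) :
    ∃ a b c : Fin n → ℝ, InTwo s t a b ∧ unpierced n n a b c = 0 := by
  have hn' : (0 : ℝ) < n := by exact_mod_cast hn
  have hs : s = 0 ∨ s = 1 ∨ s = 2 ∨ s = 3 := by omega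
  have hcase : (s = 1 ∨ s = 2) ∨ (s = 0 ∨ s = 3) := by tauto
  rcases hcase with hs | hs
  · refine ⟨fun _ => 1, fun _ => 0, fun l => 2 * (((l : ℕ) : ℝ) + 1 / 2) / n - 1, ⟨?_, ?_⟩, ?_⟩
    · intro l h; exact one_ne_zero h.1
    · intro l
      left
      unfold Sector
      rcases hs with rfl | rfl
      · right; left; exact ⟨rfl, by norm_num, by norm_num⟩
      · right; right; left; exact ⟨rfl, by norm_num, by norm_num⟩
    · apply unpierced_zero
      intro i j
      refine ⟨i, pierces_of_point i j _ _ _ (((i : ℕ) : ℝ) + 1 / 2) (((j : ℕ) : ℝ) + 1 / 2)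
        (by linarith) (by linarith) (by linarith) (by linarith) ?_⟩
      field_simp
      ring
  · refine ⟨fun _ => 0, fun _ => 1, fun l => 2 * (((l : ℕ) : ℝ) + 1 / 2) / n - 1, ⟨?_, ?_⟩, ?_⟩
    · intro l h; exact one_ne_zero h.2
    · intro l
      left
      unfold Sector
      rcases hs with rfl | rfl
      · left; exact ⟨rfl, by norm_num, by norm_num⟩
      · right; right; right; exact ⟨rfl, by norm_num, by norm_num⟩
    · apply unpierced_zero
      intro i j
      refine ⟨j, pierces_of_point i j _ _ _ (((i : ℕ) : ℝ) + 1 / 2) (((j : ℕ) : ℝ) + 1 / 2)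
        (by linarith) (by linarith) (by linarith) (by linarith) ?_⟩
      field_simp
      ring

lemma arith (n i j : ℕ) (hn : 3 ≤ n) (hi : i < n) (hj : j < n) :
    ((i = 0 ∧ j = n - 1) ∨ (i = 0 ∧ j = n - 2) ∨ (i = n - 1 ∧ j = 1) ∨ (i = n - 1 ∧ j = 0)) ∨
    ∃ l : ℕ, l < n - 2 ∧ (2 * l + 3 + i = j + n ∨ (2 * l + 3 + i = j + n + 1 ∧ i + j + 1 < n) ∨
      (2 * l + 3 + i + 1 = j + n ∧ n < i + j + 1)) := by
  by_cases h : (i = 0 ∧ j = n - 1) ∨ (i = 0 ∧ j = n - 2) ∨ (i = n - 1 ∧ j = 1) ∨ (i = n - 1 ∧ j = 0)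
  · left; exact h
  · right
    rcases Nat.even_or_odd' (i + j + n) with ⟨t, ht | ht⟩
    · rcases lt_trichotomy (i + j + 1) n with h1 | h1 | h1
      · refine ⟨(j + n + 1 - 3 - i) / 2, ?_, Or.inr (Or.inl ⟨?_, h1⟩)⟩ <;> omega
      · omega
      · refine ⟨(j + n - 4 - i) / 2, ?_, Or.inr (Or.inr ⟨?_, h1⟩)⟩ <;> omega
    · refine ⟨(j + n - 3 - i) / 2, ?_, Or.inl ?_⟩ <;> omega

/-- `n - 1` lines: `n - 2` steep ascending lines and one flat descending line. -/
theorem upper13 (n : ℕ) (hn : 3 ≤ n) :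
    ∃ a b c : Fin (n - 1) → ℝ, InTwo 1 3 a b ∧ unpierced n (n - 1) a b c = 0 := by
  have hn3 : (3 : ℝ) ≤ n := by exact_mod_cast hn
  have hn' : (0 : ℝ) < n := by linarith
  set a : Fin (n - 1) → ℝ := fun l => if (l : ℕ) = n - 2 then ((n : ℝ) - 2) else -(2 * (n : ℝ) + 1) with ha
  set b : Fin (n - 1) → ℝ := fun l => if (l : ℕ) = n - 2 then ((n : ℝ) - 1) else 2 * (n : ℝ) - 1 with hb
  set c' : Fin (n - 1) → ℝ := fun l => if (l : ℕ) = n - 2 then ((n : ℝ) ^ 2 - 3 * n / 2) else
    (n : ℝ) * (2 * (2 * ((l : ℕ) : ℝ) - (n - 3)) - 1) with hc'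
  have hcc : ∀ l, (2 * c' l / n - a l - b l + a l + b l) * n / 2 = c' l := by
    intro l
    field_simp
    ring
  obtain ⟨η, hη, hη0⟩ : ∃ η : ℝ, (n : ℝ) * η = 1 / 4 ∧ 0 < η :=
    ⟨1 / (4 * n), by field_simp, by positivity⟩
  have hη1 : η ≤ 1 / 12 := by nlinarith
  refine ⟨a, b, fun l => 2 * c' l / n - a l - b l, ⟨?_, ?_⟩, ?_⟩
  · rintro l ⟨h1, h2⟩
    simp only [ha, hb] at h1 h2
    split_ifs at h1 h2 <;> linarith
  · intro l
    simp only [ha, hb]
    by_cases hl : (l : ℕ) = n - 2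
    · right
      rw [if_pos hl, if_pos hl]
      unfold Sector
      right; right; right
      refine ⟨rfl, by nlinarith, ?_⟩
      rw [abs_of_nonneg (by linarith), abs_of_nonneg (by linarith)]
      linarith
    · left
      rw [if_neg hl, if_neg hl]
      unfold Sector
      right; left
      refine ⟨rfl, by nlinarith, ?_⟩
      rw [abs_of_nonneg (by linarith : (0 : ℝ) ≤ 2 * (n : ℝ) - 1), abs_neg,
        abs_of_nonneg (by linarith : (0 : ℝ) ≤ 2 * (n : ℝ) + 1)]
      linarith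
  · apply unpierced_zero
    intro i j
    rcases arith n i j hn i.2 j.2 with hex | ⟨l, hl, hcase⟩
    · -- the flat descending line
      have hlast : n - 2 < n - 1 := by omega
      refine ⟨⟨n - 2, hlast⟩, ?_⟩
      have e1 : a ⟨n - 2, hlast⟩ = (n : ℝ) - 2 := by simp [ha]
      have e2 : b ⟨n - 2, hlast⟩ = (n : ℝ) - 1 := by simp [hb]
      have e3 : c' ⟨n - 2, hlast⟩ = (n : ℝ) ^ 2 - 3 * n / 2 := by simp [hc']
      have hh := hcc ⟨n - 2, hlast⟩
      rcases hex with ⟨h1, h2⟩ | ⟨h1, h2⟩ | ⟨h1, h2⟩ | ⟨h1, h2⟩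
      · have r1 : ((i : ℕ) : ℝ) = 0 := by rw [h1]; simp
        have r2 : ((j : ℕ) : ℝ) = n - 1 := by rw [h2, Nat.cast_sub (by omega)]; simp
        apply pierces_of_point i j _ _ _ (1 / 2 - (n - 1) * η) (n - 1 + (n - 2) * η)
        · rw [r1]; nlinarith
        · rw [r1]; nlinarith
        · rw [r2]; nlinarith
        · rw [r2]; nlinarith
        · rw [hh, e1, e2, e3]; ring
      · have r1 : ((i : ℕ) : ℝ) = 0 := by rw [h1]; simp
        have r2 : ((j : ℕ) : ℝ) = n - 2 := by rw [h2, Nat.cast_sub (by omega)]; simp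
        apply pierces_of_point i j _ _ _ (1 / 2 + (n - 1) * η) (n - 1 - (n - 2) * η)
        · rw [r1]; nlinarith
        · rw [r1]; nlinarith
        · rw [r2]; nlinarith
        · rw [r2]; nlinarith
        · rw [hh, e1, e2, e3]; ring
      · have r1 : ((i : ℕ) : ℝ) = n - 1 := by rw [h1, Nat.cast_sub (by omega)]; simp
        have r2 : ((j : ℕ) : ℝ) = 1 := by rw [h2]; simp
        apply pierces_of_point i j _ _ _ (n - 1 / 2 - (n - 1) * η) (1 + (n - 2) * η)
        · rw [r1]; nlinarith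
        · rw [r1]; nlinarith
        · rw [r2]; nlinarith
        · rw [r2]; nlinarith
        · rw [hh, e1, e2, e3]; ring
      · have r1 : ((i : ℕ) : ℝ) = n - 1 := by rw [h1, Nat.cast_sub (by omega)]; simp
        have r2 : ((j : ℕ) : ℝ) = 0 := by rw [h2]; simp
        apply pierces_of_point i j _ _ _ (n - 1 / 2 + (n - 1) * η) (1 - (n - 2) * η)
        · rw [r1]; nlinarith
        · rw [r1]; nlinarith
        · rw [r2]; nlinarith
        · rw [r2]; nlinarith
        · rw [hh, e1, e2, e3]; ring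
    · -- a steep ascending line
      have hl' : l < n - 1 := by omega
      refine ⟨⟨l, hl'⟩, ?_⟩
      have hlne : ¬ (l = n - 2) := by omega
      have e1 : a ⟨l, hl'⟩ = -(2 * (n : ℝ) + 1) := by simp [ha, hlne]
      have e2 : b ⟨l, hl'⟩ = 2 * (n : ℝ) - 1 := by simp [hb, hlne]
      have e3 : c' ⟨l, hl'⟩ = (n : ℝ) * (2 * (2 * (l : ℝ) - (n - 3)) - 1) := by simp [hc', hlne]
      have hh := hcc ⟨l, hl'⟩
      have hi0 : (0 : ℝ) ≤ ((i : ℕ) : ℝ) := by positivity
      have hj0 : (0 : ℝ) ≤ ((j : ℕ) : ℝ) := by positivity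
      have hi1 : ((i : ℕ) : ℝ) + 1 ≤ n := by exact_mod_cast i.2
      have hj1 : ((j : ℕ) : ℝ) + 1 ≤ n := by exact_mod_cast j.2
      set τ : ℝ := ((i : ℕ) : ℝ) + ((j : ℕ) : ℝ) + 1 - n with hτ
      set w : ℝ := 2 * (l : ℝ) - (n - 3) + 2 * τ * η with hw
      have hτ1 : -1 < 2 * τ * η := by nlinarith
      have hτ2 : 2 * τ * η < 1 := by nlinarith
      have hwb : ((j : ℕ) : ℝ) - ((i : ℕ) : ℝ) - 1 < w ∧ w < ((j : ℕ) : ℝ) - ((i : ℕ) : ℝ) + 1 := by
        rcases hcase with h | ⟨h, h'⟩ | ⟨h, h'⟩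
        · have hr : 2 * (l : ℝ) + 3 + ((i : ℕ) : ℝ) = ((j : ℕ) : ℝ) + n := by exact_mod_cast h
          constructor <;> rw [hw] <;> linarith
        · have hr : 2 * (l : ℝ) + 3 + ((i : ℕ) : ℝ) = ((j : ℕ) : ℝ) + n + 1 := by exact_mod_cast h
          have hr' : ((i : ℕ) : ℝ) + ((j : ℕ) : ℝ) + 1 < n := by exact_mod_cast h'
          have hτneg : 2 * τ * η < 0 := by
            have : τ < 0 := by rw [hτ]; linarith
            nlinarith
          constructor <;> rw [hw] <;> linarith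
        · have hr : 2 * (l : ℝ) + 3 + ((i : ℕ) : ℝ) + 1 = ((j : ℕ) : ℝ) + n := by exact_mod_cast h
          have hr' : (n : ℝ) < ((i : ℕ) : ℝ) + ((j : ℕ) : ℝ) + 1 := by exact_mod_cast h'
          have hτpos : 0 < 2 * τ * η := by
            have : 0 < τ := by rw [hτ]; linarith
            positivity
          constructor <;> rw [hw] <;> linarith
      apply pierces_of_point i j _ _ _ ((((i : ℕ) : ℝ) + ((j : ℕ) : ℝ) + 1 - w) / 2)
        ((((i : ℕ) : ℝ) + ((j : ℕ) : ℝ) + 1 + w) / 2)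
      · linarith [hwb.1, hwb.2]
      · linarith [hwb.1, hwb.2]
      · linarith [hwb.1, hwb.2]
      · linarith [hwb.1, hwb.2]
      · rw [hh, e1, e2, e3]
        have : -(2 * (n : ℝ) + 1) * ((((i : ℕ) : ℝ) + ((j : ℕ) : ℝ) + 1 - w) / 2) +
            (2 * (n : ℝ) - 1) * ((((i : ℕ) : ℝ) + ((j : ℕ) : ℝ) + 1 + w) / 2) =
            2 * n * w - (((i : ℕ) : ℝ) + ((j : ℕ) : ℝ) + 1) := by ring
        rw [this, hw]
        have : 2 * (n : ℝ) * (2 * (l : ℝ) - (n - 3) + 2 * τ * η) =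
            2 * n * (2 * (l : ℝ) - (n - 3)) + 4 * τ * (n * η) := by ring
        rw [this, hη, hτ]
        ring

theorem upper_opposite (n : ℕ) (hn : 3 ≤ n) (s : Fin 4) :
    ∃ a b c : Fin (n - 1) → ℝ, InTwo s (s + 2) a b ∧ unpierced n (n - 1) a b c = 0 := by
  obtain ⟨a, b, c, h, h0⟩ := upper13 n hn
  have hs : s = 0 ∨ s = 1 ∨ s = 2 ∨ s = 3 := by omega
  rcases hs with rfl | rfl | rfl | rfl
  · exact ⟨fun l => -a l, b, c, inTwo_swap (inTwo_reflect h), by rw [unpierced_reflect]; exact h0⟩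
  · exact ⟨a, b, c, h, h0⟩
  · exact ⟨fun l => -a l, b, c, inTwo_reflect h, by rw [unpierced_reflect]; exact h0⟩
  · exact ⟨a, b, c, inTwo_swap h, h0⟩

/-- **Main theorem.**  Let `n ≥ 3` and consider families of lines whose directions lie in two of the
four closed 45-degree sectors.  If the two sectors are opposite (for instance slopes in `[1, ∞]` and in
`[-1, 0]`), the least number of lines piercing all cells of `Q_n` is exactly `n - 1`; for every other pair
it is exactly `n`.  Moreover `K ≤ n - 2` such lines leave at least four cells unpierced. -/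
theorem result (n : ℕ) (hn : 3 ≤ n) (s t : Fin 4) :
    IsLeast {K : ℕ | ∃ a b c : Fin K → ℝ, InTwo s t a b ∧
      ∀ i j : Fin n, ∃ l, Pierces (line (a l) (b l) (c l)) n i j} (if t = s + 2 then n - 1 else n) ∧
    ∀ (K : ℕ) (a b c : Fin K → ℝ), InTwo s t a b → K + 2 ≤ n → 4 ≤ unpierced n K a b c := by
  have hpierce : ∀ (K : ℕ) (a b c : Fin K → ℝ), unpierced n K a b c = 0 →
      ∀ i j : Fin n, ∃ l, Pierces (line (a l) (b l) (c l)) n i j := by
    intro K a b c h0 i j
    by_contra hcon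
    rw [not_exists] at hcon
    unfold unpierced at h0
    rw [Nat.card_eq_zero] at h0
    rcases h0 with h0 | h0
    · exact h0.false ⟨(i, j), hcon⟩
    · exact h0.not_finite inferInstance
  constructor
  · by_cases hst : t = s + 2
    · rw [if_pos hst]
      subst hst
      constructor
      · obtain ⟨a, b, c, h1, h2⟩ := upper_opposite n hn s
        exact ⟨a, b, c, h1, hpierce _ a b c h2⟩
      · rintro K ⟨a, b, c, h1, h2⟩
        by_contra hcon
        rw [not_le] at hcon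
        have := lower_opposite n K (by omega) s a b c h1
        rw [unpierced_zero h2] at this
        omega
    · rw [if_neg hst]
      constructor
      · obtain ⟨a, b, c, h1, h2⟩ := upper_adjacent n (by omega) s t
        exact ⟨a, b, c, h1, hpierce _ a b c h2⟩
      · rintro K ⟨a, b, c, h1, h2⟩
        by_contra hcon
        rw [not_le] at hcon
        have := lower_adjacent n K s t hst a b c h1
        rw [unpierced_zero h2] at this
        have h3 : 0 < (n - K) ^ 2 := by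
          have : 0 < n - K := by omega
          positivity
        omega
  · intro K a b c h hK
    by_cases hst : t = s + 2
    · subst hst
      exact lower_opposite n K hK s a b c h
    · refine le_trans ?_ (lower_adjacent n K s t hst a b c h)
      have : 2 ≤ n - K := by omega
      calc 4 = 2 ^ 2 := by norm_num
        _ ≤ (n - K) ^ 2 := Nat.pow_le_pow_left this 2

end Pool.Agent.Results.MP_999027_co.TwoSectors
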